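import Pool.Agent.Grm.Defs

namespace Pool.Agent.Grm

open Pool.Agent.CTm Nat

variable {x : ℕ → ℤ}

theorem Pro.coh (hx : Pro x) {i j : ℕ} (hij : i ≤ j) : ((i ! : ℕ) : ℤ) ∣ x j - x i := by
  induction j, hij using Nat.le_induction with
  | base => rw [sub_self]; exact dvd_zero _
  | succ j hij ih =>
    have h1 : x (j + 1) - x i = (x (j + 1) - x j) + (x j - x i) := by ring
    rw [h1]
    refine dvd_add ((?_ : ((i ! : ℕ) : ℤ) ∣ ((j ! : ℕ) : ℤ)).trans (hx j)) ih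
    exact_mod_cast Nat.factorial_dvd_factorial hij

/-- a germ can be tested at any deeper level -/
theorem Germ.deep (hx : Pro x) {h : Equiv.Perm ℤ} {a : ℚ × ℚ} (ha : Germ x h a) :
    ∃ j0 : ℕ, ∀ j : ℕ, j0 ≤ j → ∀ n : ℤ, ((j ! : ℕ) : ℤ) ∣ n - x j →
      ((h n : ℤ) : ℚ) = a.1 * n + a.2 := by
  obtain ⟨j0, h0⟩ := ha
  refine ⟨j0, fun j hj n hn => h0 n ?_⟩
  have h1 : n - x j0 = (n - x j) + (x j - x j0) := by ring
  rw [h1]
  refine dvd_add ((?_ : ((j0 ! : ℕ) : ℤ) ∣ ((j ! : ℕ) : ℤ)).trans hn) (hx.coh hj)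
  exact_mod_cast Nat.factorial_dvd_factorial hj

theorem Germ.unique (hx : Pro x) {h : Equiv.Perm ℤ} {a b : ℚ × ℚ} (ha : Germ x h a)
    (hb : Germ x h b) : a = b := by
  obtain ⟨i, hi⟩ := ha.deep hx
  obtain ⟨j, hj⟩ := hb.deep hx
  have e1 := hi (max i j) (le_max_left _ _) (x (max i j)) (by simp)
  have e2 := hj (max i j) (le_max_right _ _) (x (max i j)) (by simp)
  have e3 := hi (max i j) (le_max_left _ _) (x (max i j) + (((max i j) ! : ℕ) : ℤ)) (by simp)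
  have e4 := hj (max i j) (le_max_right _ _) (x (max i j) + (((max i j) ! : ℕ) : ℤ)) (by simp)
  rw [e1] at e2
  rw [e3] at e4
  have hf : (0 : ℚ) < (((max i j) ! : ℕ) : ℚ) := by exact_mod_cast Nat.factorial_pos _
  push_cast at e4
  have e5 : (a.1 - b.1) * (((max i j) ! : ℕ) : ℚ) = 0 := by linear_combination e4 - e2
  have e6 : a.1 = b.1 := by
    rcases mul_eq_zero.1 e5 with h | h
    · linarith
    · exact absurd h hf.ne'
  have e7 : a.2 = b.2 := by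
    rw [e6] at e2
    linarith
  exact Prod.ext e6 e7

theorem Germ.one : Germ x 1 (1, 0) := by
  exact ⟨0, fun n _ => by simp⟩

/-- composition with a generator: the deep class around `x` is mapped by `h` into one class
modulo `M` -/
theorem Germ.step (hx : Pro x) {S : Set (Equiv.Perm ℤ)} {M : ℕ} {A : Finset (ℚ × ℚ)}
    (hd : Data S M A) {h : Equiv.Perm ℤ} {a : ℚ × ℚ} (ha : Germ x h a) {s : Equiv.Perm ℤ}
    (hs : s ∈ S ∨ s⁻¹ ∈ S) : ∃ b ∈ A, Germ x (s * h) (b.1 * a.1, b.1 * a.2 + b.2) := by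
  obtain ⟨j, hj⟩ := ha.deep hx
  have hM := hd.pos
  have hdv : (((M * j ! : ℕ)) : ℤ) ∣ (((j + M) ! : ℕ) : ℤ) := by
    have h1 : M * j ! ∣ (j + M) ! := by
      refine (mul_dvd_mul_right (Nat.dvd_factorial hM le_rfl) (j !)).trans ?_
      rw [mul_comm]
      exact Nat.factorial_mul_factorial_dvd_factorial_add j M
    exact_mod_cast h1
  set n0 := x (j + M) with hn0
  have h0 : ((h n0 : ℤ) : ℚ) = a.1 * n0 + a.2 := hj (j + M) (Nat.le_add_right _ _) n0 (by simp [hn0])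
  have h0' : ((h (n0 + ((j ! : ℕ) : ℤ)) : ℤ) : ℚ) = a.1 * (n0 + ((j ! : ℕ) : ℤ) : ℤ) + a.2 := by
    refine hj j le_rfl _ ?_
    have h1 : n0 + ((j ! : ℕ) : ℤ) - x j = (n0 - x j) + ((j ! : ℕ) : ℤ) := by ring
    rw [h1]
    exact dvd_add (hx.coh (Nat.le_add_right _ _)) dvd_rfl
  have he : a.1 * ((j ! : ℕ) : ℚ) = ((h (n0 + ((j ! : ℕ) : ℤ)) - h n0 : ℤ) : ℚ) := by
    push_cast
    rw [h0', h0]
    push_cast
    ring
  obtain ⟨b, hb, hb'⟩ := hd.aff s hs (h n0)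
  refine ⟨b, hb, j + M, fun n hn => ?_⟩
  have hn1 : ((h n : ℤ) : ℚ) = a.1 * n + a.2 := hj (j + M) (Nat.le_add_right _ _) n hn
  have hdiv : (M : ℤ) ∣ h n - h n0 := by
    obtain ⟨k, hk⟩ := hdv.trans hn
    refine ⟨(h (n0 + ((j ! : ℕ) : ℤ)) - h n0) * k, ?_⟩
    have h2 : ((h n - h n0 : ℤ) : ℚ) = (((M : ℤ) * ((h (n0 + ((j ! : ℕ) : ℤ)) - h n0) * k) : ℤ) : ℚ) := by
      have h3 : ((n - n0 : ℤ) : ℚ) = (((((M * j ! : ℕ)) : ℤ) * k : ℤ) : ℚ) := by rw [hk]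
      push_cast at h3
      have h4 : ((h n - h n0 : ℤ) : ℚ) = a.1 * ((n : ℚ) - n0) := by
        push_cast
        rw [hn1, h0]
        ring
      rw [h4, h3]
      push_cast at he ⊢
      linear_combination (M : ℚ) * (k : ℚ) * he
    exact_mod_cast h2
  have h5 := hb' (h n) hdiv
  show ((s (h n) : ℤ) : ℚ) = b.1 * a.1 * n + (b.1 * a.2 + b.2)
  rw [h5, hn1]
  ring

/-- germs with the same slope differ by an integer -/
theorem Germ.int (hx : Pro x) {h h' : Equiv.Perm ℤ} {a b : ℚ × ℚ} (ha : Germ x h a)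
    (hb : Germ x h' b) (hab : a.1 = b.1) : ∃ k : ℤ, a.2 - b.2 = k := by
  obtain ⟨i, hi⟩ := ha.deep hx
  obtain ⟨j, hj⟩ := hb.deep hx
  have e1 := hi (max i j) (le_max_left _ _) (x (max i j)) (by simp)
  have e2 := hj (max i j) (le_max_right _ _) (x (max i j)) (by simp)
  refine ⟨h (x (max i j)) - h' (x (max i j)), ?_⟩
  push_cast
  rw [e1, e2, hab]
  ring

/-- equal germs -/
theorem Germ.fix (hx : Pro x) {h h' : Equiv.Perm ℤ} {a : ℚ × ℚ} (ha : Germ x h a)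
    (hb : Germ x h' a) : FixNear x (h⁻¹ * h') := by
  obtain ⟨i, hi⟩ := ha.deep hx
  obtain ⟨j, hj⟩ := hb.deep hx
  refine ⟨max i j, fun n hn => ?_⟩
  have e1 := hi (max i j) (le_max_left _ _) n hn
  have e2 := hj (max i j) (le_max_right _ _) n hn
  rw [← e1] at e2
  have e3 : h' n = h n := by exact_mod_cast e2
  rw [Equiv.Perm.mul_apply, e3]
  exact h.symm_apply_apply n

end Pool.Agent.Grm
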