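import Pool.Agent.Grm.Defs

namespace Pool.Agent.Grm

open Pool.Agent.CTm

variable {G : Type*} [Group G]

/-- The descent. -/
theorem descent {S : Set G} {c C₁ : ℝ} (hc : 0 < c) (hC : 0 < C₁)
    (hstep : ∀ F : Set G, F.Finite → F ⊆ Subgroup.closure S → 2 ≤ F.ncard →
      ∃ F' : Set G, F' ⊆ F ∧ F'.Nonempty ∧ (F'.ncard : ℝ) ≤ F.ncard / 2 ∧
        ((bdry S F').ncard : ℝ) / F'.ncard ≤ (bdry S F).ncard / F.ncard +
          C₁ * (F.ncard : ℝ) ^ (-c))
    (hna : ∀ ε > 0, ¬ NonAmen S ε) :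
    ∃ C₄ : ℝ, 0 < C₄ ∧ ∀ N : ℕ, 1 ≤ N → ∃ F : Set G, F.Finite ∧ F.Nonempty ∧
      F.ncard ≤ N ∧ ((bdry S F).ncard : ℝ) ≤ C₄ * (N : ℝ) ^ (-c) * F.ncard := by
  have h2c : (1 : ℝ) < 2 ^ c := Real.one_lt_rpow (by norm_num) hc
  have h2c' : (0 : ℝ) < 2 ^ c - 1 := by linarith
  set C₃ : ℝ := C₁ / (2 ^ c - 1) with hC₃
  have hC₃0 : 0 < C₃ := div_pos hC h2c'
  have hhalf : ∀ t : ℝ, 0 < t → (t / 2) ^ (-c) = 2 ^ c * t ^ (-c) := by
    intro t ht
    rw [Real.div_rpow ht.le (by norm_num), Real.rpow_neg (by norm_num : (0 : ℝ) ≤ 2)]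
    have : (2 : ℝ) ^ c ≠ 0 := (Real.rpow_pos_of_pos (by norm_num) c).ne'
    field_simp
  have hid : ∀ t : ℝ, 0 < t → C₁ * t ^ (-c) = C₃ * ((t / 2) ^ (-c) - t ^ (-c)) := by
    intro t ht
    rw [hhalf t ht, hC₃]
    field_simp
  have hanti : ∀ s t : ℝ, 0 < s → s ≤ t → t ^ (-c) ≤ s ^ (-c) := by
    intro s t hs hst
    exact Real.rpow_le_rpow_of_nonpos hs hst (by linarith)
  -- the induction
  have key : ∀ N : ℕ, 1 ≤ N → ∀ m : ℕ, ∀ F : Set G, F.Finite → F ⊆ Subgroup.closure S →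
      F.ncard = m → N < m → ∃ F' : Set G, F'.Finite ∧ F'.Nonempty ∧ F'.ncard ≤ N ∧
        ((bdry S F').ncard : ℝ) / F'.ncard ≤ (bdry S F).ncard / F.ncard +
          C₃ * (((N : ℝ) / 2) ^ (-c) - (m : ℝ) ^ (-c)) := by
    intro N hN m
    induction m using Nat.strong_induction_on with
    | _ m ih =>
      intro F hF hFS hFm hNm
      have hN0 : (1 : ℝ) ≤ N := by exact_mod_cast hN
      have hm0 : (N : ℝ) < m := by exact_mod_cast hNm
      obtain ⟨F', a1, a2, a3, a4⟩ := hstep F hF hFS (by omega)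
      have hF'f : F'.Finite := hF.subset a1
      rw [hFm] at a3
      have e1 := hid (m : ℝ) (by linarith)
      have e2 : ((m : ℝ) / 2) ^ (-c) ≤ ((N : ℝ) / 2) ^ (-c) := hanti _ _ (by linarith) (by linarith)
      rw [hFm, e1] at a4
      by_cases h1 : F'.ncard ≤ N
      · refine ⟨F', hF'f, a2, h1, a4.trans ?_⟩
        rw [hFm]
        have := mul_le_mul_of_nonneg_left (sub_le_sub_right e2 ((m : ℝ) ^ (-c))) hC₃0.le
        linarith
      · push Not at h1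
        have h2 : F'.ncard < m := by
          have h3 : (F'.ncard : ℝ) < m := by linarith
          exact_mod_cast h3
        obtain ⟨F'', b1, b2, b3, b4⟩ := ih _ h2 F' hF'f (a1.trans hFS) rfl h1
        refine ⟨F'', b1, b2, b3, b4.trans ?_⟩
        have h4 : (0 : ℝ) < F'.ncard := by
          have : 0 < F'.ncard := by omega
          exact_mod_cast this
        have e3 : ((m : ℝ) / 2) ^ (-c) ≤ (F'.ncard : ℝ) ^ (-c) := hanti _ _ h4 a3
        rw [hFm]
        have := mul_le_mul_of_nonneg_left e3 hC₃0.le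
        nlinarith
  refine ⟨1 + C₃ * 2 ^ c, by positivity, fun N hN => ?_⟩
  have hN0 : (0 : ℝ) < N := by exact_mod_cast hN
  have hφ : (0 : ℝ) < (N : ℝ) ^ (-c) := Real.rpow_pos_of_pos hN0 _
  have h1 := hna _ hφ
  unfold NonAmen at h1
  push Not at h1
  obtain ⟨F, hF, hFS, hlt⟩ := h1
  have hFne : F.Nonempty := by
    by_contra hcon
    rw [Set.not_nonempty_iff_eq_empty] at hcon
    rw [hcon] at hlt
    simp only [Set.ncard_empty, Nat.cast_zero, mul_zero] at hlt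
    have : (0 : ℝ) ≤ (bdry S (∅ : Set G)).ncard := by positivity
    linarith
  have hFpos : (0 : ℝ) < F.ncard := by
    have : 0 < F.ncard := (Set.ncard_pos hF).2 hFne
    exact_mod_cast this
  by_cases hle : F.ncard ≤ N
  · refine ⟨F, hF, hFne, hle, hlt.le.trans ?_⟩
    have : (N : ℝ) ^ (-c) ≤ (1 + C₃ * 2 ^ c) * (N : ℝ) ^ (-c) := by
      have h3 : (0 : ℝ) ≤ C₃ * 2 ^ c * (N : ℝ) ^ (-c) := by positivity
      linarith
    exact mul_le_mul_of_nonneg_right this hFpos.le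
  · push Not at hle
    obtain ⟨F', b1, b2, b3, b4⟩ := key N hN F.ncard F hF hFS rfl hle
    have hF'pos : (0 : ℝ) < F'.ncard := by
      have : 0 < F'.ncard := (Set.ncard_pos b1).2 b2
      exact_mod_cast this
    refine ⟨F', b1, b2, b3, ?_⟩
    have h3 : ((bdry S F).ncard : ℝ) / F.ncard ≤ (N : ℝ) ^ (-c) := by
      rw [div_le_iff₀ hFpos]
      exact hlt.le
    have h4 : (0 : ℝ) ≤ (F.ncard : ℝ) ^ (-c) := by positivity
    have h5 : ((bdry S F').ncard : ℝ) / F'.ncard ≤ (1 + C₃ * 2 ^ c) * (N : ℝ) ^ (-c) := by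
      rw [hhalf _ hN0] at b4
      have := mul_nonneg hC₃0.le h4
      linarith
    rwa [div_le_iff₀ hF'pos] at h5

end Pool.Agent.Grm
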