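import Pool.Agent.Grm.Slab

namespace Pool.Agent.Grm

open Pool.Agent.CTm

variable {G : Type*} [Group G]

private theorem cut_w {S : Set G} {ι : Type} {v : G → ι → ℤ} {ξ w : G → ℝ} {D κ : ℕ}
    {C : ℝ} (hc : Coord S v ξ w D C κ) {F : Set G}
    (hFS : F ⊆ Subgroup.closure S) (hF2 : 2 ≤ F.ncard) {h : G} (hh : h ∈ Subgroup.closure S) :
    0 ≤ C * w h := by
  have hne : S.Nonempty := by
    by_contra hS
    rw [Set.not_nonempty_iff_eq_empty] at hS
    rw [hS, Subgroup.closure_empty] at hFS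
    have h1 : F.ncard ≤ ({1} : Set G).ncard := Set.ncard_le_ncard (fun x hx => by
      have h2 := hFS hx
      exact Subgroup.mem_bot.1 h2) (Set.finite_singleton 1)
    rw [Set.ncard_singleton] at h1
    omega
  obtain ⟨s, hs⟩ := hne
  exact (abs_nonneg _).trans (hc.xi_lip h hh s (Or.inl hs))

/-- The vectors `v` in a given block. -/
private theorem cut_box {ι : Type} [Fintype ι] (a c : ι → ℤ) (L : ℕ) (hL : 0 < L) :
    ∃ T : Finset (ι → ℤ), T.card = L ^ Fintype.card ι ∧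
      ∀ u : ι → ℤ, (∀ p, (u p - c p) / (L : ℤ) = a p) → u ∈ T := by
  classical
  refine ⟨Fintype.piFinset (fun p => Finset.Ico (a p * L + c p) (a p * L + c p + L)), ?_, ?_⟩
  · rw [Fintype.card_piFinset]
    simp
  · intro u hu
    rw [Fintype.mem_piFinset]
    intro p
    have hL' : (0 : ℤ) < L := by omega
    have h1 := Int.mul_ediv_add_emod (u p - c p) L
    have h3 := Int.emod_lt_of_pos (u p - c p) hL'
    have h4 := Int.emod_nonneg (u p - c p) hL'.ne'
    rw [hu p] at h1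
    rw [Finset.mem_Ico]
    constructor <;> nlinarith

private theorem cut_Z2 {S : Set G} {ι : Type} [Fintype ι] {v : G → ι → ℤ} {ξ w : G → ℝ}
    {D κ : ℕ} {C : ℝ} (hc : Coord S v ξ w D C κ) {F : Set G}
    (hFS : F ⊆ Subgroup.closure S) (L : ℕ) (hL : 0 < L) (a c : ι → ℤ) (m : ℝ) :
    {h | h ∈ F ∧ (∀ p, (v h p - c p) / (L : ℤ) = a p) ∧ |ξ h - m| ≤ C * w h}.ncard ≤
      κ * L ^ Fintype.card ι := by
  classical
  obtain ⟨T, hT, hT'⟩ := cut_box a c L hL
  set U : (ι → ℤ) → Set G := fun u =>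
    {h | h ∈ Subgroup.closure S ∧ v h = u ∧ |ξ h - m| ≤ C * w h} with hU
  have hUf : ∀ u, (U u).Finite := fun u => hc.fin u m
  have h1 : {h | h ∈ F ∧ (∀ p, (v h p - c p) / (L : ℤ) = a p) ∧ |ξ h - m| ≤ C * w h} ⊆
      ((T.biUnion fun u => (hUf u).toFinset : Finset G) : Set G) := by
    intro h hh
    rw [Finset.mem_coe, Finset.mem_biUnion]
    refine ⟨v h, hT' _ hh.2.1, ?_⟩
    rw [Set.Finite.mem_toFinset]
    exact ⟨hFS hh.1, rfl, hh.2.2⟩
  calc _ ≤ ((T.biUnion fun u => (hUf u).toFinset : Finset G) : Set G).ncard :=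
        Set.ncard_le_ncard h1 (Finset.finite_toSet _)
    _ = (T.biUnion fun u => (hUf u).toFinset).card := Set.ncard_coe_finset _
    _ ≤ ∑ u ∈ T, ((hUf u).toFinset).card := Finset.card_biUnion_le
    _ ≤ ∑ u ∈ T, κ := by
        refine Finset.sum_le_sum fun u _ => ?_
        rw [← Set.ncard_eq_toFinset_card (U u) (hUf u)]
        exact hc.cnt u m
    _ = κ * L ^ Fintype.card ι := by rw [Finset.sum_const, hT, smul_eq_mul, Nat.mul_comm]

/-- Separators. For every `p` take `c p` from `slab` (for `fun h => v h p`) and remove the slabs: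
`Z₁ = {h ∈ F | ∃ p, (v h p - c p) % L < D}`, `|Z₁| ≤ (card ι) D |F| / L`. The blocks are the fibres of
`h ↦ fun p => (v h p - c p) / L`; a block contains at most `L ^ (card ι)` vectors `v h`.
If no block of `F \ Z₁` has more than `|F| / 2` elements take `Z = Z₁`, `ℓ h = (block, 0)`. Otherwise take
the block `B` with more than `|F| / 2` elements (there is only one), a median `m` of `ξ` on `B`, add
`Z₂ = {h ∈ B | |ξ h - m| ≤ C w h}` (`|Z₂| ≤ κ L ^ (card ι)` by `cnt`) and use as label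
`(block, sign of ξ h - m)`, for `h ∈ B`, `(block, 0)` otherwise. -/
theorem cut {S : Set G} {ι : Type} [Fintype ι] {v : G → ι → ℤ} {ξ w : G → ℝ} {D κ : ℕ} {C : ℝ}
    (hc : Coord S v ξ w D C κ) {F : Set G} (hF : F.Finite) (hFS : F ⊆ Subgroup.closure S)
    (hF2 : 2 ≤ F.ncard) (L : ℕ) (hL : 0 < L) :
    ∃ (Z : Set G) (ℓ : G → (ι → ℤ) × ℤ), Z ⊆ F ∧
      (∀ h ∈ F \ Z, ∀ s, (s ∈ S ∨ s⁻¹ ∈ S) → s * h ∈ F \ Z → ℓ (s * h) = ℓ h) ∧
      (∀ a, ({h | h ∈ F \ Z ∧ ℓ h = a}.ncard : ℝ) ≤ F.ncard / 2) ∧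
      (Z.ncard : ℝ) ≤ Fintype.card ι * D * F.ncard / L + κ * L ^ Fintype.card ι := by
  classical
  choose c hcs using fun p : ι => slab (fun h => v h p) hF L D hL
  have hL' : (0 : ℝ) < L := by exact_mod_cast hL
  set Z₁ : Set G := {h | h ∈ F ∧ ∃ p, (v h p - c p) % (L : ℤ) < D} with hZ₁
  have hZ₁F : Z₁ ⊆ F := fun h hh => hh.1
  have hZ₁c : (Z₁.ncard : ℝ) ≤ Fintype.card ι * D * F.ncard / L := by
    have h1 : Z₁.ncard ≤ ∑ p : ι, {h | h ∈ F ∧ (v h p - c p) % (L : ℤ) < D}.ncard := by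
      have hUf : ∀ p : ι, {h | h ∈ F ∧ (v h p - c p) % (L : ℤ) < D}.Finite :=
        fun p => hF.subset fun h hh => hh.1
      have h2 : Z₁ ⊆ ((Finset.univ.biUnion fun p => (hUf p).toFinset : Finset G) : Set G) := by
        intro h hh
        obtain ⟨hh1, p, hp⟩ := hh
        rw [Finset.mem_coe, Finset.mem_biUnion]
        exact ⟨p, Finset.mem_univ _, (Set.Finite.mem_toFinset _).2 ⟨hh1, hp⟩⟩
      calc _ ≤ ((Finset.univ.biUnion fun p => (hUf p).toFinset : Finset G) : Set G).ncard :=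
            Set.ncard_le_ncard h2 (Finset.finite_toSet _)
        _ = (Finset.univ.biUnion fun p => (hUf p).toFinset).card := Set.ncard_coe_finset _
        _ ≤ ∑ p : ι, ((hUf p).toFinset).card := Finset.card_biUnion_le
        _ = _ := by
            refine Finset.sum_congr rfl fun p _ => ?_
            rw [← Set.ncard_eq_toFinset_card _ (hUf p)]
    have h3 : Z₁.ncard * L ≤ Fintype.card ι * (D * F.ncard) := by
      calc Z₁.ncard * L ≤ (∑ p : ι, {h | h ∈ F ∧ (v h p - c p) % (L : ℤ) < D}.ncard) * L :=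
            Nat.mul_le_mul_right L h1
        _ = ∑ p : ι, {h | h ∈ F ∧ (v h p - c p) % (L : ℤ) < D}.ncard * L := Finset.sum_mul _ _ _
        _ ≤ ∑ p : ι, D * F.ncard := Finset.sum_le_sum fun p _ => hcs p
        _ = _ := by rw [Finset.sum_const, smul_eq_mul, Finset.card_univ]
    rw [le_div_iff₀ hL']
    have h4 : ((Z₁.ncard * L : ℕ) : ℝ) ≤ ((Fintype.card ι * (D * F.ncard) : ℕ) : ℝ) := by
      exact_mod_cast h3
    push_cast at h4
    linarith
  have hκ : (0 : ℝ) ≤ κ * L ^ Fintype.card ι := by positivity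
  set bk : G → ι → ℤ := fun h p => (v h p - c p) / (L : ℤ) with hbk
  have hedge : ∀ h ∈ F \ Z₁, ∀ s, (s ∈ S ∨ s⁻¹ ∈ S) → s * h ∈ F \ Z₁ → bk (s * h) = bk h := by
    intro h hh s hs hsh
    funext p
    refine block_eq hL (hc.v_lip h (hFS hh.1) s hs p) ?_ ?_
    · intro h1
      exact hsh.2 ⟨hsh.1, p, h1⟩
    · intro h1
      exact hh.2 ⟨hh.1, p, h1⟩
  by_cases hA : ∀ a, ({h | h ∈ F \ Z₁ ∧ bk h = a}.ncard : ℝ) ≤ F.ncard / 2
  · refine ⟨Z₁, fun h => (bk h, 0), hZ₁F, ?_, ?_, by linarith⟩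
    · intro h hh s hs hsh
      show (bk (s * h), (0 : ℤ)) = (bk h, 0)
      rw [hedge h hh s hs hsh]
    · intro a
      refine le_trans ?_ (hA a.1)
      have h5 : {h | h ∈ F \ Z₁ ∧ (bk h, (0 : ℤ)) = a} ⊆ {h | h ∈ F \ Z₁ ∧ bk h = a.1} :=
        fun h hh => ⟨hh.1, congrArg Prod.fst hh.2⟩
      have h6 := Set.ncard_le_ncard h5 (hF.subset fun h hh => hh.1.1)
      exact_mod_cast h6
  · push Not at hA
    obtain ⟨a₀, ha₀⟩ := hA
    set B : Set G := {h | h ∈ F \ Z₁ ∧ bk h = a₀} with hB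
    have hBF : B ⊆ F := fun h hh => hh.1.1
    have hBfin : B.Finite := hF.subset hBF
    obtain ⟨m, hm1, hm2⟩ := median ξ hBfin
    set Z₂ : Set G := {h | h ∈ F ∧ (∀ p, (v h p - c p) / (L : ℤ) = a₀ p) ∧
      |ξ h - m| ≤ C * w h} with hZ₂
    have hZ₂c := cut_Z2 hc hFS L hL a₀ c m
    have hBcard : (B.ncard : ℝ) ≤ F.ncard := by exact_mod_cast Set.ncard_le_ncard hBF hF
    set ℓ : G → (ι → ℤ) × ℤ := fun h =>
      (bk h, if bk h = a₀ then (if ξ h < m then -1 else 1) else 0) with hℓ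
    refine ⟨Z₁ ∪ Z₂, ℓ, Set.union_subset hZ₁F fun h hh => hh.1, ?_, ?_, ?_⟩
    · intro h hh s hs hsh
      have h1 : h ∈ F \ Z₁ := ⟨hh.1, fun h2 => hh.2 (Or.inl h2)⟩
      have h2 : s * h ∈ F \ Z₁ := ⟨hsh.1, fun h2 => hsh.2 (Or.inl h2)⟩
      have h3 := hedge h h1 s hs h2
      show (bk (s * h), if bk (s * h) = a₀ then (if ξ (s * h) < m then (-1 : ℤ) else 1) else 0) =
        (bk h, if bk h = a₀ then (if ξ h < m then -1 else 1) else 0)
      rw [h3]
      by_cases h4 : bk h = a₀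
      · rw [if_pos h4, if_pos h4]
        have h5 : ¬ |ξ h - m| ≤ C * w h := fun h6 =>
          hh.2 (Or.inr ⟨hh.1, fun p => congrFun h4 p, h6⟩)
        have h6 := hc.xi_lip h (hFS hh.1) s hs
        have h7 : (ξ (s * h) < m) ↔ (ξ h < m) := by
          push Not at h5
          rw [abs_le] at h6
          rcases lt_or_ge (ξ h) m with h8 | h8
          · rw [abs_of_neg (by linarith)] at h5
            constructor
            · intro _
              exact h8
            · intro _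
              linarith [h6.2]
          · rw [abs_of_nonneg (by linarith)] at h5
            constructor
            · intro h9
              linarith [h6.1]
            · intro h9
              linarith
        simp only [h7]
      · rw [if_neg h4, if_neg h4]
    · rintro ⟨a, e⟩
      by_cases h4 : a = a₀
      · subst h4
        by_cases he : e = -1
        · subst he
          have h5 : {h | h ∈ F \ (Z₁ ∪ Z₂) ∧ ℓ h = (a, -1)} ⊆ {h | h ∈ B ∧ ξ h < m} := by
            rintro h ⟨hh, hl⟩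
            have h6 : bk h = a := congrArg Prod.fst hl
            have h7 : (if bk h = a then (if ξ h < m then (-1 : ℤ) else 1) else 0) = -1 :=
              congrArg Prod.snd hl
            rw [if_pos h6] at h7
            refine ⟨⟨⟨hh.1, fun h8 => hh.2 (Or.inl h8)⟩, h6⟩, ?_⟩
            by_contra h8
            rw [if_neg h8] at h7
            omega
          have h6 := Set.ncard_le_ncard h5 (hBfin.subset fun h hh => hh.1)
          have h7 : (2 : ℝ) * {h | h ∈ B ∧ ξ h < m}.ncard ≤ B.ncard := by exact_mod_cast hm1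
          have h8 : ({h | h ∈ F \ (Z₁ ∪ Z₂) ∧ ℓ h = (a, -1)}.ncard : ℝ) ≤
            {h | h ∈ B ∧ ξ h < m}.ncard := by exact_mod_cast h6
          linarith
        · have h5 : {h | h ∈ F \ (Z₁ ∪ Z₂) ∧ ℓ h = (a, e)} ⊆ {h | h ∈ B ∧ m < ξ h} := by
            rintro h ⟨hh, hl⟩
            have h6 : bk h = a := congrArg Prod.fst hl
            have h7 : (if bk h = a then (if ξ h < m then (-1 : ℤ) else 1) else 0) = e :=
              congrArg Prod.snd hl
            rw [if_pos h6] at h7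
            refine ⟨⟨⟨hh.1, fun h8 => hh.2 (Or.inl h8)⟩, h6⟩, ?_⟩
            have h8 : ¬ ξ h < m := fun h9 => he (by rw [← h7, if_pos h9])
            rcases lt_or_eq_of_le (not_lt.1 h8) with h9 | h9
            · exact h9
            · exfalso
              refine hh.2 (Or.inr ⟨hh.1, fun p => congrFun h6 p, ?_⟩)
              rw [← h9, sub_self, abs_zero]
              exact cut_w hc hFS hF2 (hFS hh.1)
          have h6 := Set.ncard_le_ncard h5 (hBfin.subset fun h hh => hh.1)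
          have h7 : (2 : ℝ) * {h | h ∈ B ∧ m < ξ h}.ncard ≤ B.ncard := by exact_mod_cast hm2
          have h8 : ({h | h ∈ F \ (Z₁ ∪ Z₂) ∧ ℓ h = (a, e)}.ncard : ℝ) ≤
            {h | h ∈ B ∧ m < ξ h}.ncard := by exact_mod_cast h6
          linarith
      · have h5 : {h | h ∈ F \ (Z₁ ∪ Z₂) ∧ ℓ h = (a, e)} ⊆ F \ B := by
          rintro h ⟨hh, hl⟩
          have h6 : bk h = a := congrArg Prod.fst hl
          exact ⟨hh.1, fun h7 => h4 (by rw [← h6]; exact h7.2)⟩
        have h6 := Set.ncard_le_ncard h5 (hF.subset Set.sdiff_subset)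
        rw [Set.ncard_sdiff hBF hBfin] at h6
        have h7 : ({h | h ∈ F \ (Z₁ ∪ Z₂) ∧ ℓ h = (a, e)}.ncard : ℝ) ≤
            ((F.ncard - B.ncard : ℕ) : ℝ) := by exact_mod_cast h6
        rw [Nat.cast_sub (Set.ncard_le_ncard hBF hF)] at h7
        linarith
    · have h5 : ((Z₁ ∪ Z₂).ncard : ℝ) ≤ Z₁.ncard + Z₂.ncard := by
        exact_mod_cast Set.ncard_union_le Z₁ Z₂
      have h6 : (Z₂.ncard : ℝ) ≤ κ * L ^ Fintype.card ι := by exact_mod_cast hZ₂c
      linarith

end Pool.Agent.Grm
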