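import Pool.Agent.Grm.Split
import Pool.Agent.Grm.Cut

namespace Pool.Agent.Grm

open Pool.Agent.CTm

variable {G : Type*} [Group G]

/-- the choice of the side length of the blocks -/
theorem choose_L (r m : ℕ) (hm : 1 ≤ m) :
    ∃ L : ℕ, 0 < L ∧ L ^ (r + 1) ≤ m ∧
      (1 : ℝ) / L ≤ 2 * (m : ℝ) ^ (-(1 / ((r : ℝ) + 1))) := by
  have hm' : (1 : ℝ) ≤ m := by exact_mod_cast hm
  have hr : (0 : ℝ) < (r : ℝ) + 1 := by positivity
  set y : ℝ := (m : ℝ) ^ (1 / ((r : ℝ) + 1)) with hy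
  have hy1 : 1 ≤ y := Real.one_le_rpow hm' (by positivity)
  have hyp : y ^ (r + 1) = m := by
    rw [hy, ← Real.rpow_natCast, ← Real.rpow_mul (by linarith)]
    have : 1 / ((r : ℝ) + 1) * ((r + 1 : ℕ) : ℝ) = 1 := by
      push_cast
      field_simp
    rw [this, Real.rpow_one]
  have hL1 : 1 ≤ ⌊y⌋₊ := by
    rw [Nat.le_floor_iff (by linarith)]
    simpa using hy1
  refine ⟨⌊y⌋₊, by omega, ?_, ?_⟩
  · have h1 : ((⌊y⌋₊ : ℝ)) ^ (r + 1) ≤ m := by
      rw [← hyp]
      exact pow_le_pow_left₀ (by positivity) (Nat.floor_le (by linarith)) _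
    exact_mod_cast h1
  · have h1 : y < ⌊y⌋₊ + 1 := Nat.lt_floor_add_one y
    have h2 : (1 : ℝ) ≤ ⌊y⌋₊ := by exact_mod_cast hL1
    have h3 : y / 2 ≤ ⌊y⌋₊ := by linarith
    rw [Real.rpow_neg (by linarith), ← hy]
    calc (1 : ℝ) / ⌊y⌋₊ ≤ 1 / (y / 2) := one_div_le_one_div_of_le (by linarith) h3
      _ = 2 * y⁻¹ := by field_simp

theorem bdry_le {S F : Set G} (hF : F.Finite) : (bdry S F).ncard ≤ F.ncard :=
  Set.ncard_le_ncard (fun _ hx => hx.1) hF

/-- One step of the descent. -/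
theorem step {S : Set G} (hS : S.Finite) {ι : Type} [Fintype ι] {v : G → ι → ℤ} {ξ w : G → ℝ}
    {D κ : ℕ} {C : ℝ} (hc : Coord S v ξ w D C κ) :
    ∃ C₁ : ℝ, 0 < C₁ ∧ ∀ F : Set G, F.Finite → F ⊆ Subgroup.closure S → 2 ≤ F.ncard →
      ∃ F' : Set G, F' ⊆ F ∧ F'.Nonempty ∧ (F'.ncard : ℝ) ≤ F.ncard / 2 ∧
        ((bdry S F').ncard : ℝ) / F'.ncard ≤ (bdry S F).ncard / F.ncard +
          C₁ * (F.ncard : ℝ) ^ (-(1 / ((Fintype.card ι : ℝ) + 1))) := by
  set r := Fintype.card ι with hr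
  set A : ℝ := r * D + κ with hA
  have hA0 : 0 ≤ A := by positivity
  refine ⟨4 * (2 * S.ncard + 1) * A + 4 * A + 1, by positivity, fun F hF hFS hF2 => ?_⟩
  set φ : ℝ := (F.ncard : ℝ) ^ (-(1 / ((r : ℝ) + 1))) with hφ
  have hm0 : (2 : ℝ) ≤ F.ncard := by exact_mod_cast hF2
  have hφ0 : 0 < φ := Real.rpow_pos_of_pos (by linarith) _
  obtain ⟨L, hL, hL1, hL2⟩ := choose_L r F.ncard (by omega)
  rw [← hφ] at hL2
  obtain ⟨Z, ℓ, z1, z2, z3, z4⟩ := cut hc hF hFS hF2 L hL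
  rw [← hr] at z4
  have hL' : (0 : ℝ) < L := by exact_mod_cast hL
  -- the bound for `Z`
  have hZ : (Z.ncard : ℝ) ≤ 2 * A * φ * F.ncard := by
    have h1 : ((L : ℝ)) ^ (r + 1) ≤ F.ncard := by exact_mod_cast hL1
    have h2 : (L : ℝ) ^ r ≤ F.ncard / L := by
      rw [le_div_iff₀ hL', ← pow_succ]
      exact h1
    have h3 : (κ : ℝ) * (L : ℝ) ^ r ≤ κ * (F.ncard / L) :=
      mul_le_mul_of_nonneg_left h2 (by positivity)
    have h4 : (Z.ncard : ℝ) ≤ A * F.ncard * (1 / L) := by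
      calc (Z.ncard : ℝ) ≤ r * D * F.ncard / L + κ * L ^ r := z4
        _ ≤ r * D * F.ncard / L + κ * (F.ncard / L) := by linarith
        _ = A * F.ncard * (1 / L) := by rw [hA]; ring
    calc (Z.ncard : ℝ) ≤ A * F.ncard * (1 / L) := h4
      _ ≤ A * F.ncard * (2 * φ) := mul_le_mul_of_nonneg_left hL2 (by positivity)
      _ = _ := by ring
  have hbF : ((bdry S F).ncard : ℝ) ≤ F.ncard := by exact_mod_cast bdry_le hF
  by_cases hbig : 2 * Z.ncard ≤ F.ncard
  · have hbig' : 2 * (Z.ncard : ℝ) ≤ F.ncard := by exact_mod_cast hbig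
    obtain ⟨F', a1, a2, a3, a4⟩ := split hS hF z1 ℓ z2 z3 (by omega)
    have hF'pos : (0 : ℝ) < F'.ncard := by
      have : 0 < F'.ncard := (Set.ncard_pos (hF.subset a1)).2 a2
      exact_mod_cast this
    refine ⟨F', a1, a2, a3, ?_⟩
    have hden : (0 : ℝ) < (F.ncard : ℝ) - Z.ncard := by linarith
    have h1 : ((bdry S F').ncard : ℝ) / F'.ncard ≤
        ((bdry S F).ncard + 2 * S.ncard * Z.ncard) / ((F.ncard : ℝ) - Z.ncard) := by
      rw [div_le_div_iff₀ hF'pos hden]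
      linarith
    have h2 : ((bdry S F).ncard + 2 * S.ncard * Z.ncard) / ((F.ncard : ℝ) - Z.ncard) ≤
        (bdry S F).ncard / F.ncard + 2 * (2 * S.ncard + 1) * (Z.ncard / F.ncard) := by
      have hFp : (0 : ℝ) < F.ncard := by linarith
      have e : (bdry S F).ncard / F.ncard + 2 * (2 * S.ncard + 1) * ((Z.ncard : ℝ) / F.ncard) =
          ((bdry S F).ncard + 2 * (2 * S.ncard + 1) * Z.ncard) / F.ncard := by
        field_simp
      rw [e, div_le_div_iff₀ hden hFp]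
      have hZ0 : (0 : ℝ) ≤ Z.ncard := by positivity
      have hS0 : (0 : ℝ) ≤ S.ncard := by positivity
      have p1 : ((bdry S F).ncard : ℝ) * Z.ncard ≤ F.ncard * Z.ncard :=
        mul_le_mul_of_nonneg_right hbF hZ0
      have p2 : (2 * S.ncard + 1) * Z.ncard * (2 * (Z.ncard : ℝ)) ≤
          (2 * S.ncard + 1) * Z.ncard * F.ncard :=
        mul_le_mul_of_nonneg_left hbig' (by positivity)
      nlinarith
    have h3 : (Z.ncard : ℝ) / F.ncard ≤ 2 * A * φ := by
      rw [div_le_iff₀ (by linarith)]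
      exact hZ
    have h4 : 2 * (2 * (S.ncard : ℝ) + 1) * (Z.ncard / F.ncard) ≤
        2 * (2 * S.ncard + 1) * (2 * A * φ) := mul_le_mul_of_nonneg_left h3 (by positivity)
    have h5 : 0 ≤ (4 * A + 1) * φ := by positivity
    calc ((bdry S F').ncard : ℝ) / F'.ncard ≤ _ := h1
      _ ≤ _ := h2
      _ ≤ (bdry S F).ncard / F.ncard + 2 * (2 * S.ncard + 1) * (2 * A * φ) := by linarith
      _ ≤ _ := by nlinarith
  · push Not at hbig
    have hbig' : (F.ncard : ℝ) < 2 * Z.ncard := by exact_mod_cast hbig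
    have h1 : 1 < 4 * A * φ := by
      have h2 : (F.ncard : ℝ) < 4 * A * φ * F.ncard := by linarith
      by_contra hcon
      push Not at hcon
      have := mul_le_mul_of_nonneg_right hcon (by linarith : (0 : ℝ) ≤ F.ncard)
      linarith
    obtain ⟨x, hx⟩ := (Set.ncard_pos hF).1 (by omega)
    refine ⟨{x}, Set.singleton_subset_iff.2 hx, Set.singleton_nonempty x, ?_, ?_⟩
    · rw [Set.ncard_singleton]
      push_cast
      linarith
    · rw [Set.ncard_singleton]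
      have h2 : ((bdry S {x}).ncard : ℝ) ≤ 1 := by
        have := bdry_le (S := S) (Set.finite_singleton x)
        rw [Set.ncard_singleton] at this
        exact_mod_cast this
      have h3 : (0 : ℝ) ≤ (bdry S F).ncard / F.ncard := by positivity
      have h4 : 0 ≤ (4 * (2 * S.ncard + 1) * A + 1) * φ := by positivity
      push_cast
      rw [div_one]
      nlinarith

end Pool.Agent.Grm
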