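import Pool.Agent.Grm.Iso
import Pool.Agent.Grm.Step
import Pool.Agent.Grm.Descent

namespace Pool.Agent.Grm

open Pool.Agent.CTm

variable {G : Type*} [Group G]

/-- The abstract alternative. -/
theorem abs_alternative {S : Set G} (hS : S.Finite) {ι : Type} [Fintype ι] {v : G → ι → ℤ}
    {ξ w : G → ℝ} {D κ : ℕ} {C : ℝ} (hc : Coord S v ξ w D C κ) :
    (∃ C' d : ℕ, ∀ n : ℕ, 1 ≤ n → growth S n ≤ C' * n ^ d) ∨ ∃ ε > 0, NonAmen S ε := by
  by_cases hna : ∃ ε > 0, NonAmen S ε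
  · exact Or.inr hna
  left
  push Not at hna
  obtain ⟨C₁, hC₁, hstep⟩ := step hS hc
  set r := Fintype.card ι with hr
  have hc0 : (0 : ℝ) < 1 / ((r : ℝ) + 1) := by positivity
  obtain ⟨C₄, hC₄, hdes⟩ := descent hc0 hC₁ hstep hna
  refine ⟨3 * (⌈2 * C₄⌉₊) ^ (r + 1) + 1, r + 1, fun R hR => ?_⟩
  have hR' : (1 : ℝ) ≤ R := by exact_mod_cast hR
  by_cases hsmall : growth S R < 2
  · have h1 : 1 ≤ R ^ (r + 1) := Nat.one_le_pow _ _ hR
    calc growth S R ≤ 1 := by omega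
      _ ≤ 1 * R ^ (r + 1) := by omega
      _ ≤ _ := Nat.mul_le_mul_right _ (by omega)
  push Not at hsmall
  set N := growth S R / 2 with hN
  have hN1 : 1 ≤ N := by omega
  have hN' : (0 : ℝ) < N := by exact_mod_cast hN1
  obtain ⟨F, f1, f2, f3, f4⟩ := hdes N hN1
  have hi := iso hS f1 R (by omega)
  have hFpos : (0 : ℝ) < F.ncard := by
    have : 0 < F.ncard := (Set.ncard_pos f1).2 f2
    exact_mod_cast this
  have hi' : (F.ncard : ℝ) ≤ 2 * R * (bdry S F).ncard := by exact_mod_cast hi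
  have h1 : (1 : ℝ) ≤ 2 * C₄ * R * (N : ℝ) ^ (-(1 / ((r : ℝ) + 1))) := by
    have h2 : (F.ncard : ℝ) ≤
        2 * C₄ * R * (N : ℝ) ^ (-(1 / ((r : ℝ) + 1))) * F.ncard := by
      calc (F.ncard : ℝ) ≤ 2 * R * (bdry S F).ncard := hi'
        _ ≤ 2 * R * (C₄ * (N : ℝ) ^ (-(1 / ((r : ℝ) + 1))) * F.ncard) :=
          mul_le_mul_of_nonneg_left f4 (by positivity)
        _ = _ := by ring
    by_contra hcon
    push Not at hcon
    have := mul_lt_mul_of_pos_right hcon hFpos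
    linarith
  have h2 : (N : ℝ) ^ (1 / ((r : ℝ) + 1)) ≤ 2 * C₄ * R := by
    rw [Real.rpow_neg hN'.le] at h1
    have h3 : (0 : ℝ) < (N : ℝ) ^ (1 / ((r : ℝ) + 1)) := Real.rpow_pos_of_pos hN' _
    have h4 := mul_le_mul_of_nonneg_right h1 h3.le
    rw [mul_assoc, inv_mul_cancel₀ h3.ne', one_mul, mul_one] at h4
    exact h4
  have h3 : (N : ℝ) ≤ (2 * C₄ * R) ^ (r + 1) := by
    have h4 : ((N : ℝ) ^ (1 / ((r : ℝ) + 1))) ^ (r + 1) = N := by
      rw [← Real.rpow_natCast, ← Real.rpow_mul hN'.le]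
      have : 1 / ((r : ℝ) + 1) * ((r + 1 : ℕ) : ℝ) = 1 := by
        push_cast
        field_simp
      rw [this, Real.rpow_one]
    calc (N : ℝ) = ((N : ℝ) ^ (1 / ((r : ℝ) + 1))) ^ (r + 1) := h4.symm
      _ ≤ _ := pow_le_pow_left₀ (by positivity) h2 _
  have h5 : (N : ℝ) ≤ ((⌈2 * C₄⌉₊ * R : ℕ) : ℝ) ^ (r + 1) := by
    refine h3.trans (pow_le_pow_left₀ (by positivity) ?_ _)
    push_cast
    exact mul_le_mul_of_nonneg_right (Nat.le_ceil _) (by positivity)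
  have h6 : N ≤ (⌈2 * C₄⌉₊ * R) ^ (r + 1) := by exact_mod_cast h5
  rw [mul_pow] at h6
  calc growth S R ≤ 3 * N := by omega
    _ ≤ 3 * (⌈2 * C₄⌉₊ ^ (r + 1) * R ^ (r + 1)) := Nat.mul_le_mul_left _ h6
    _ = 3 * ⌈2 * C₄⌉₊ ^ (r + 1) * R ^ (r + 1) := by ring
    _ ≤ _ := Nat.mul_le_mul_right _ (by omega)

end Pool.Agent.Grm
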