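import Pool.Agent.Grm.Defs

namespace Pool.Agent.Grm

private theorem val_zero {p : ℕ} (hp : p.Prime) {a : ℚ} (h1 : ¬ p ∣ a.num.natAbs) (h2 : ¬ p ∣ a.den) :
    padicValRat p a = 0 := by
  rw [padicValRat, padicValInt, padicValNat.eq_zero_of_not_dvd h1, padicValNat.eq_zero_of_not_dvd h2]
  simp

private theorem val_one {q : ℚ} (hq : 0 < q) (h : ∀ p : ℕ, p.Prime → padicValRat p q = 0) : q = 1 := by
  have hcop := q.reduced
  have hnum : q.num.natAbs ≠ 0 := by
    rw [Int.natAbs_ne_zero]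
    exact (Rat.num_pos.2 hq).ne'
  have h1 : q.num.natAbs = 1 := by
    by_contra hne
    obtain ⟨p, hp, hpd⟩ := Nat.exists_prime_and_dvd hne
    have : Fact p.Prime := ⟨hp⟩
    have h2 := h p hp
    have h3 : ¬ p ∣ q.den := fun h4 => hp.one_lt.ne' (Nat.eq_one_of_dvd_coprimes hcop hpd h4)
    rw [padicValRat, padicValInt, padicValNat.eq_zero_of_not_dvd h3] at h2
    have h5 := one_le_padicValNat_of_dvd hnum hpd
    simp at h2
    rcases h2 with h2 | h2 | h2
    · exact hp.one_lt.ne' h2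
    · exact hq.ne' h2
    · exact h2 hpd
  have h2 : q.den = 1 := by
    by_contra hne
    obtain ⟨p, hp, hpd⟩ := Nat.exists_prime_and_dvd hne
    have : Fact p.Prime := ⟨hp⟩
    have h2 := h p hp
    have h3 : ¬ p ∣ q.num.natAbs := fun h4 => hp.one_lt.ne' (Nat.eq_one_of_dvd_coprimes hcop h4 hpd)
    rw [padicValRat, padicValInt, padicValNat.eq_zero_of_not_dvd h3] at h2
    have h5 := one_le_padicValNat_of_dvd q.den_nz hpd
    omega
  have h3 : q.num = 1 := by
    have h4 := Rat.num_pos.2 hq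
    omega
  rw [← Rat.num_div_den q, h3, h2]
  norm_num

private theorem val_ext {q q' : ℚ} (hq : 0 < q) (hq' : 0 < q')
    (h : ∀ p : ℕ, p.Prime → padicValRat p q = padicValRat p q') : q = q' := by
  have h1 : q / q' = 1 := by
    refine val_one (div_pos hq hq') fun p hp => ?_
    have : Fact p.Prime := ⟨hp⟩
    rw [padicValRat.div hq.ne' hq'.ne', h p hp, sub_self]
  rwa [div_eq_one_iff_eq hq'.ne'] at h1

/-- Valuations. `ι` = the primes which divide numerators or denominators of elements of `A`,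
`v q p = padicValRat p q`, `Q = {q | 0 < q ∧ ∀ prime p ∉ ι, padicValRat p q = 0}`. -/
theorem val_coord (A : Finset ℚ) (hA : ∀ a ∈ A, 0 < a) :
    ∃ (ι : Type) (_ : Fintype ι) (v : ℚ → ι → ℤ) (D : ℕ) (Q : Set ℚ),
      1 ∈ Q ∧ (∀ q ∈ Q, 0 < q) ∧ (∀ a ∈ A, ∀ q ∈ Q, a * q ∈ Q) ∧
      (∀ a ∈ A, ∀ q ∈ Q, ∀ p, |v (a * q) p - v q p| ≤ D) ∧
      (∀ q ∈ Q, ∀ q' ∈ Q, v q = v q' → q = q') := by
  classical
  let P : Finset ℕ := A.biUnion fun a => a.num.natAbs.primeFactors ∪ a.den.primeFactors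
  let Q : Set ℚ := {q | 0 < q ∧ ∀ p : ℕ, p.Prime → p ∉ P → padicValRat p q = 0}
  have hAP : ∀ a ∈ A, ∀ p : ℕ, p.Prime → p ∉ P → padicValRat p a = 0 := by
    intro a ha p hp hpP
    have h1 : p ∉ a.num.natAbs.primeFactors ∪ a.den.primeFactors := fun h =>
      hpP (Finset.mem_biUnion.2 ⟨a, ha, h⟩)
    rw [Finset.mem_union, not_or] at h1
    have hnum : a.num.natAbs ≠ 0 := by
      rw [Int.natAbs_ne_zero]
      exact (Rat.num_pos.2 (hA a ha)).ne'
    refine val_zero hp (fun h => h1.1 ?_) (fun h => h1.2 ?_)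
    · exact Nat.mem_primeFactors.2 ⟨hp, h, hnum⟩
    · exact Nat.mem_primeFactors.2 ⟨hp, h, a.den_nz⟩
  have hpr : ∀ p ∈ P, p.Prime := by
    intro p hp
    obtain ⟨a, _, h⟩ := Finset.mem_biUnion.1 hp
    rcases Finset.mem_union.1 h with h | h
    · exact Nat.prime_of_mem_primeFactors h
    · exact Nat.prime_of_mem_primeFactors h
  have hmul : ∀ p : ℕ, p.Prime → ∀ a q : ℚ, 0 < a → 0 < q →
      padicValRat p (a * q) = padicValRat p a + padicValRat p q := by
    intro p hp a q ha hq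
    have : Fact p.Prime := ⟨hp⟩
    exact padicValRat.mul ha.ne' hq.ne'
  refine ⟨P, inferInstance, fun q p => padicValRat (p : ℕ) q,
    ∑ a ∈ A, ∑ p ∈ P, (padicValRat p a).natAbs, Q, ?_, ?_, ?_, ?_, ?_⟩
  · exact ⟨one_pos, fun p _ _ => padicValRat.one⟩
  · exact fun q hq => hq.1
  · intro a ha q hq
    refine ⟨mul_pos (hA a ha) hq.1, fun p hp hpP => ?_⟩
    rw [hmul p hp a q (hA a ha) hq.1, hAP a ha p hp hpP, hq.2 p hp hpP, add_zero]
  · intro a ha q hq p
    show |padicValRat (p : ℕ) (a * q) - padicValRat (p : ℕ) q| ≤ _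
    rw [hmul p (hpr p p.2) a q (hA a ha) hq.1, add_sub_cancel_right, Int.abs_eq_natAbs]
    have h1 : (padicValRat (p : ℕ) a).natAbs ≤ ∑ p ∈ P, (padicValRat p a).natAbs :=
      Finset.single_le_sum (f := fun p => (padicValRat p a).natAbs) (fun _ _ => Nat.zero_le _) p.2
    have h2 : ∑ p ∈ P, (padicValRat p a).natAbs ≤ ∑ a ∈ A, ∑ p ∈ P, (padicValRat p a).natAbs :=
      Finset.single_le_sum (f := fun a => ∑ p ∈ P, (padicValRat p a).natAbs) (fun _ _ => Nat.zero_le _) ha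
    exact_mod_cast h1.trans h2
  · intro q hq q' hq' h
    refine val_ext hq.1 hq'.1 fun p hp => ?_
    by_cases hpP : p ∈ P
    · exact congrFun h ⟨p, hpP⟩
    · rw [hq.2 p hp hpP, hq'.2 p hp hpP]

end Pool.Agent.Grm
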