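import Pool.Agent.Grm.GermA
import Pool.Agent.Grm.Val

namespace Pool.Agent.Grm

open Pool.Agent.CTm Nat

/-- the elements with a given germ form a coset of the stabiliser of the germ -/
private theorem inst_coset {S : Set (Equiv.Perm ℤ)} {x : ℕ → ℤ} (hx : Pro x)
    (hK : {h | h ∈ Subgroup.closure S ∧ FixNear x h}.Finite) (a : ℚ × ℚ) :
    {h | h ∈ Subgroup.closure S ∧ Germ x h a}.Finite ∧
      {h | h ∈ Subgroup.closure S ∧ Germ x h a}.ncard ≤
        {h | h ∈ Subgroup.closure S ∧ FixNear x h}.ncard := by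
  rcases Set.eq_empty_or_nonempty {h | h ∈ Subgroup.closure S ∧ Germ x h a} with he | ⟨h1, hh1⟩
  · rw [he]
    exact ⟨Set.finite_empty, by simp⟩
  · have hmaps : ∀ h ∈ {h | h ∈ Subgroup.closure S ∧ Germ x h a},
        h1⁻¹ * h ∈ {h | h ∈ Subgroup.closure S ∧ FixNear x h} := by
      intro h hh
      exact ⟨mul_mem (inv_mem hh1.1) hh.1, Germ.fix hx hh1.2 hh.2⟩
    have hinj : Set.InjOn (fun h => h1⁻¹ * h) {h | h ∈ Subgroup.closure S ∧ Germ x h a} :=
      fun h _ h' _ hhh => mul_left_cancel hhh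
    refine ⟨Set.Finite.of_injOn hmaps hinj hK, ?_⟩
    exact Set.ncard_le_ncard_of_injOn (fun h => h1⁻¹ * h) hmaps hinj hK

/-- every element has a germ, with slope in `Q` -/
private theorem inst_germ {S : Set (Equiv.Perm ℤ)} {M : ℕ} {A : Finset (ℚ × ℚ)} (hd : Data S M A)
    {x : ℕ → ℤ} (hx : Pro x) {Q : Set ℚ} (h1 : 1 ∈ Q)
    (hQ : ∀ a ∈ A.image Prod.fst, ∀ q ∈ Q, a * q ∈ Q) {h : Equiv.Perm ℤ}
    (hh : h ∈ Subgroup.closure S) : ∃ a : ℚ × ℚ, Germ x h a ∧ a.1 ∈ Q := by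
  induction hh using Subgroup.closure_induction_left with
  | one => exact ⟨(1, 0), Germ.one, h1⟩
  | mul_left s hs y _ ih =>
    obtain ⟨a, ha, haQ⟩ := ih
    obtain ⟨b, hb, hb'⟩ := Germ.step hx hd ha (Or.inl hs)
    exact ⟨_, hb', hQ _ (Finset.mem_image_of_mem _ hb) _ haQ⟩
  | inv_mul_cancel s hs y _ ih =>
    obtain ⟨a, ha, haQ⟩ := ih
    obtain ⟨b, hb, hb'⟩ := Germ.step hx hd ha (s := s⁻¹) (Or.inr (by rwa [inv_inv]))
    exact ⟨_, hb', hQ _ (Finset.mem_image_of_mem _ hb) _ haQ⟩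

/-- The coordinates of the group generated by `S`. Every `h` in the group has a germ `g h` (closure
induction with left multiplication, `Germ.step`), with slope in `Q` of `val_coord`.
`v h = v (g h).1`, `ξ h = (g h).2 / (g h).1`, `w h = 1 / (g h).1`, `C` = maximum of
`|a.2| / a.1` over `A`. For `cnt`: the slope `λ` is determined by `v0`, `|t - λ c| ≤ C`, the `t` lie in one coset of
`ℤ` (`Germ.int`), at most `2 C + 1` values, and for given `(λ, t)` the elements form a coset of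
`{h | h ∈ closure S ∧ FixNear x h}` (`Germ.fix`). -/
theorem exists_coord {S : Set (Equiv.Perm ℤ)} {M : ℕ} {A : Finset (ℚ × ℚ)} (hd : Data S M A)
    {x : ℕ → ℤ} (hx : Pro x) (hK : {h | h ∈ Subgroup.closure S ∧ FixNear x h}.Finite) :
    ∃ (ι : Type) (_ : Fintype ι) (v : Equiv.Perm ℤ → ι → ℤ) (ξ w : Equiv.Perm ℤ → ℝ) (D : ℕ)
      (C : ℝ) (κ : ℕ), Coord S v ξ w D C κ := by
  classical
  obtain ⟨ι, hι, v, D, Q, hQ1, hQpos, hQmul, hQlip, hQinj⟩ := val_coord (A.image Prod.fst) (by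
    intro a ha
    obtain ⟨b, hb, rfl⟩ := Finset.mem_image.1 ha
    exact hd.slope b hb)
  have hex : ∀ h : Equiv.Perm ℤ, ∃ a : ℚ × ℚ, h ∈ Subgroup.closure S → Germ x h a ∧ a.1 ∈ Q := by
    intro h
    by_cases hh : h ∈ Subgroup.closure S
    · obtain ⟨a, ha⟩ := inst_germ hd hx hQ1 hQmul hh
      exact ⟨a, fun _ => ha⟩
    · exact ⟨(1, 0), fun h1 => absurd h1 hh⟩
  choose g hg using hex
  obtain ⟨C, hC0, hC⟩ : ∃ C : ℝ, 0 ≤ C ∧ ∀ a ∈ A, |(a.2 : ℝ)| / (a.1 : ℝ) ≤ C := by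
    refine ⟨∑ a ∈ A, |(a.2 : ℝ)| / (a.1 : ℝ), ?_, fun a ha => ?_⟩
    · exact Finset.sum_nonneg fun a ha => div_nonneg (abs_nonneg _) (by
        have := hd.slope a ha
        exact_mod_cast this.le)
    · exact Finset.single_le_sum (f := fun a : ℚ × ℚ => |(a.2 : ℝ)| / (a.1 : ℝ))
        (fun a ha => div_nonneg (abs_nonneg _) (by
          have := hd.slope a ha
          exact_mod_cast this.le)) ha
  have hgpos : ∀ h ∈ Subgroup.closure S, (0 : ℝ) < ((g h).1 : ℝ) := by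
    intro h hh
    exact_mod_cast hQpos _ (hg h hh).2
  have hgen : ∀ s, (s ∈ S ∨ s⁻¹ ∈ S) → s ∈ Subgroup.closure S := by
    rintro s (hs | hs)
    · exact Subgroup.subset_closure hs
    · have := inv_mem (Subgroup.subset_closure hs : s⁻¹ ∈ Subgroup.closure S)
      rwa [inv_inv] at this
  have hstep : ∀ h ∈ Subgroup.closure S, ∀ s, (s ∈ S ∨ s⁻¹ ∈ S) →
      ∃ b ∈ A, g (s * h) = (b.1 * (g h).1, b.1 * (g h).2 + b.2) := by
    intro h hh s hs
    obtain ⟨b, hb, hb'⟩ := Germ.step hx hd (hg h hh).1 hs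
    exact ⟨b, hb, Germ.unique hx (hg (s * h) (mul_mem (hgen s hs) hh)).1 hb'⟩
  set K := {h | h ∈ Subgroup.closure S ∧ FixNear x h} with hKdef
  set N : ℕ := ⌊2 * C⌋₊ with hN
  have hbound : ∀ (v0 : ι → ℤ) (c : ℝ), ∃ a : ℚ × ℚ,
      {h | h ∈ Subgroup.closure S ∧ v (g h).1 = v0 ∧
        |((g h).2 : ℝ) / ((g h).1 : ℝ) - c| ≤ C * (1 / ((g h).1 : ℝ))} ⊆
      ⋃ k ∈ Finset.Icc (-(N : ℤ)) N, {h | h ∈ Subgroup.closure S ∧ Germ x h (a.1, a.2 + k)} := by
    intro v0 c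
    rcases Set.eq_empty_or_nonempty {h | h ∈ Subgroup.closure S ∧ v (g h).1 = v0 ∧
        |((g h).2 : ℝ) / ((g h).1 : ℝ) - c| ≤ C * (1 / ((g h).1 : ℝ))} with he | ⟨h0, hh0⟩
    · rw [he]
      exact ⟨(0, 0), Set.empty_subset _⟩
    · refine ⟨g h0, fun h hh => ?_⟩
      have h1 : (g h).1 = (g h0).1 := hQinj _ (hg h hh.1).2 _ (hg h0 hh0.1).2
        (hh.2.1.trans hh0.2.1.symm)
      obtain ⟨k, hk⟩ := Germ.int hx (hg h hh.1).1 (hg h0 hh0.1).1 h1
      have hpos := hgpos h0 hh0.1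
      have h2 := hh.2.2
      have h3 := hh0.2.2
      rw [h1] at h2
      have h4 : |((g h).2 : ℝ) / ((g h0).1 : ℝ) - ((g h0).2 : ℝ) / ((g h0).1 : ℝ)| ≤
          2 * C * (1 / ((g h0).1 : ℝ)) := by
        have h5 := abs_sub_le (((g h).2 : ℝ) / ((g h0).1 : ℝ)) c (((g h0).2 : ℝ) / ((g h0).1 : ℝ))
        rw [abs_sub_comm c] at h5
        linarith
      have h6 : |(k : ℝ)| ≤ 2 * C := by
        have h7 : ((g h).2 : ℝ) / ((g h0).1 : ℝ) - ((g h0).2 : ℝ) / ((g h0).1 : ℝ) =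
            (k : ℝ) / ((g h0).1 : ℝ) := by
          rw [← sub_div]
          congr 1
          exact_mod_cast hk
        rw [h7, abs_div, abs_of_pos hpos, mul_one_div] at h4
        exact (div_le_div_iff_of_pos_right hpos).1 h4
      have h8 : |k| ≤ (N : ℤ) := by
        have h9 : ((|k|).toNat : ℝ) ≤ 2 * C := by
          have h10 : ((|k|).toNat : ℝ) = |(k : ℝ)| := by
            have h11 : (((|k|).toNat : ℤ) : ℝ) = ((|k| : ℤ) : ℝ) := by
              rw [Int.toNat_of_nonneg (abs_nonneg k)]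
            rw [Int.cast_abs] at h11
            exact_mod_cast h11
          rw [h10]
          exact h6
        have h12 := Nat.le_floor h9
        omega
      rw [Set.mem_iUnion₂]
      refine ⟨k, Finset.mem_Icc.2 (abs_le.1 h8), hh.1, ?_⟩
      have h9 : ((g h0).1, (g h0).2 + (k : ℚ)) = g h := by
        refine Prod.ext h1.symm ?_
        show (g h0).2 + (k : ℚ) = (g h).2
        rw [← hk]
        ring
      rw [h9]
      exact (hg h hh.1).1
  have hfin : ∀ a : ℚ × ℚ,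
      (⋃ k ∈ Finset.Icc (-(N : ℤ)) N,
        {h | h ∈ Subgroup.closure S ∧ Germ x h (a.1, a.2 + k)}).Finite := by
    intro a
    refine Set.Finite.biUnion (Finset.finite_toSet _) fun k _ => ?_
    exact (inst_coset hx hK _).1
  refine ⟨ι, hι, fun h => v (g h).1, fun h => ((g h).2 : ℝ) / ((g h).1 : ℝ),
    fun h => 1 / ((g h).1 : ℝ), D, C, (2 * N + 1) * K.ncard, ?_⟩
  refine ⟨?_, ?_, ?_, ?_⟩
  · intro h hh s hs p
    obtain ⟨b, hb, he⟩ := hstep h hh s hs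
    show |v (g (s * h)).1 p - v (g h).1 p| ≤ D
    rw [he]
    exact hQlip _ (Finset.mem_image_of_mem _ hb) _ (hg h hh).2 p
  · intro h hh s hs
    obtain ⟨b, hb, he⟩ := hstep h hh s hs
    show |((g (s * h)).2 : ℝ) / ((g (s * h)).1 : ℝ) - ((g h).2 : ℝ) / ((g h).1 : ℝ)| ≤
      C * (1 / ((g h).1 : ℝ))
    rw [he]
    have hpos := hgpos h hh
    have hb1 : (0 : ℝ) < (b.1 : ℝ) := by exact_mod_cast hd.slope b hb
    have h1 : (((b.1 * (g h).2 + b.2 : ℚ)) : ℝ) / ((b.1 * (g h).1 : ℚ) : ℝ) -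
        ((g h).2 : ℝ) / ((g h).1 : ℝ) = (b.2 : ℝ) / (b.1 : ℝ) * (1 / ((g h).1 : ℝ)) := by
      push_cast
      field_simp
      ring
    show |(((b.1 * (g h).2 + b.2 : ℚ)) : ℝ) / ((b.1 * (g h).1 : ℚ) : ℝ) -
        ((g h).2 : ℝ) / ((g h).1 : ℝ)| ≤ C * (1 / ((g h).1 : ℝ))
    rw [h1, abs_mul, abs_div, abs_of_pos hb1, abs_of_pos (by positivity : 0 < 1 / ((g h).1 : ℝ))]
    exact mul_le_mul_of_nonneg_right (hC b hb) (by positivity)
  · intro v0 c
    obtain ⟨a, ha⟩ := hbound v0 c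
    exact (hfin a).subset ha
  · intro v0 c
    obtain ⟨a, ha⟩ := hbound v0 c
    refine (Set.ncard_le_ncard ha (hfin a)).trans ?_
    have h1 : (⋃ k ∈ Finset.Icc (-(N : ℤ)) N,
        {h | h ∈ Subgroup.closure S ∧ Germ x h (a.1, a.2 + k)}) =
        (((Finset.Icc (-(N : ℤ)) N).biUnion fun k =>
          (inst_coset hx hK (a.1, a.2 + k)).1.toFinset : Finset (Equiv.Perm ℤ)) :
            Set (Equiv.Perm ℤ)) := by
      ext h
      simp only [Set.mem_iUnion, Finset.coe_biUnion, Set.Finite.coe_toFinset, Finset.mem_coe]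
    rw [h1, Set.ncard_coe_finset]
    refine Finset.card_biUnion_le.trans ?_
    calc ∑ k ∈ Finset.Icc (-(N : ℤ)) N, ((inst_coset hx hK (a.1, a.2 + k)).1.toFinset).card
        ≤ ∑ k ∈ Finset.Icc (-(N : ℤ)) N, K.ncard := by
          refine Finset.sum_le_sum fun k _ => ?_
          rw [← Set.ncard_eq_toFinset_card _ (inst_coset hx hK (a.1, a.2 + k)).1]
          exact (inst_coset hx hK _).2
      _ = (2 * N + 1) * K.ncard := by
          rw [Finset.sum_const, smul_eq_mul, Int.card_Icc]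
          congr 1
          omega

end Pool.Agent.Grm
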