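import Pool.Agent.Grm.Defs

namespace Pool.Agent.Grm

open Pool.Agent.CTm

private theorem rcwa_ct {f : Equiv.Perm ℤ} (hf : IsClassTransposition f) : Rcwa f := by
  obtain ⟨r₁, m₁, r₂, m₂, h1, h2, h3, h4, _, h6, h7⟩ := hf
  have hm1 : 0 < m₁ := lt_of_le_of_lt h1 h2
  have hm2 : 0 < m₂ := lt_of_le_of_lt h3 h4
  have hM : 0 < m₁ * m₂ := mul_pos hm1 hm2
  have hcast : (((m₁ * m₂).toNat : ℕ) : ℤ) = m₁ * m₂ := Int.toNat_of_nonneg hM.le
  have q1 : (0 : ℚ) < m₁ := by exact_mod_cast hm1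
  have q2 : (0 : ℚ) < m₂ := by exact_mod_cast hm2
  refine ⟨(m₁ * m₂).toNat, by omega, fun n => ?_⟩
  rw [hcast]
  by_cases c1 : ∃ k : ℤ, n = r₁ + k * m₁
  · obtain ⟨k, hk⟩ := c1
    refine ⟨m₂ / m₁, r₂ - r₁ * m₂ / m₁, div_pos q2 q1, fun m hm => ?_⟩
    obtain ⟨j, hj⟩ := hm
    have hm' : m = r₁ + (k + m₂ * j) * m₁ := by linear_combination hj + hk
    rw [hm', (h6 _).1]
    push_cast
    field_simp
    ring
  · by_cases c2 : ∃ k : ℤ, n = r₂ + k * m₂
    · obtain ⟨k, hk⟩ := c2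
      refine ⟨m₁ / m₂, r₁ - r₂ * m₁ / m₂, div_pos q1 q2, fun m hm => ?_⟩
      obtain ⟨j, hj⟩ := hm
      have hm' : m = r₂ + (k + m₁ * j) * m₂ := by linear_combination hj + hk
      rw [hm', (h6 _).2]
      push_cast
      field_simp
      ring
    · push Not at c1 c2
      refine ⟨1, 0, one_pos, fun m hm => ?_⟩
      obtain ⟨j, hj⟩ := hm
      rw [h7 m]
      · simp
      · intro k hk
        exact c1 (k - m₂ * j) (by linear_combination hk - hj)
      · intro k hk
        exact c2 (k - m₁ * j) (by linear_combination hk - hj)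

private theorem rcwa_mul {g f : Equiv.Perm ℤ} (hg : Rcwa g) (hf : Rcwa f) : Rcwa (g * f) := by
  obtain ⟨M, hM, h⟩ := hf
  obtain ⟨M', hM', h'⟩ := hg
  refine ⟨M * M', Nat.mul_pos hM hM', fun n => ?_⟩
  obtain ⟨σ, τ, hσ, h1⟩ := h n
  obtain ⟨σ', τ', hσ', h2⟩ := h' (f n)
  refine ⟨σ' * σ, σ' * τ + τ', mul_pos hσ' hσ, fun m hm => ?_⟩
  have e0 := h1 n (by simp)
  have e1 := h1 (n + M) (by simp)
  have hm1 : (M : ℤ) ∣ m - n := (Dvd.intro _ (by push_cast; rfl)).trans hm
  have e2 := h1 m hm1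
  have e3 : (M' : ℤ) ∣ f m - f n := by
    obtain ⟨k, hk⟩ := hm
    refine ⟨(f (n + M) - f n) * k, ?_⟩
    have h5 : ((f m - f n : ℤ) : ℚ) = (((M' : ℤ) * ((f (n + M) - f n) * k) : ℤ) : ℚ) := by
      have h6 : ((m - n : ℤ) : ℚ) = ((((M * M' : ℕ)) : ℤ) * k : ℤ) := by rw [hk]
      push_cast at h6 e1 ⊢
      rw [e0, e1, e2]
      linear_combination σ * h6
    exact_mod_cast h5
  have e4 := h2 (f m) e3
  show ((g (f m) : ℤ) : ℚ) = _
  rw [e4, e2]
  ring

private theorem rcwa_inv {f : Equiv.Perm ℤ} (hf : Rcwa f) : Rcwa f⁻¹ := by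
  obtain ⟨M, hM, h⟩ := hf
  have hMz : (0 : ℤ) < M := by exact_mod_cast hM
  have hMq : (0 : ℚ) < M := by exact_mod_cast hM
  have hpos : ∀ r : ℤ, 0 < f (r + M) - f r := by
    intro r
    obtain ⟨σ, τ, hσ, h1⟩ := h r
    have e0 := h1 r (by simp)
    have e1 := h1 (r + M) (by simp)
    have h2 : (0 : ℚ) < ((f (r + M) - f r : ℤ) : ℚ) := by
      push_cast
      rw [e0, e1]
      push_cast
      nlinarith [mul_pos hσ hMq]
    exact_mod_cast h2
  refine ⟨∏ r ∈ Finset.range M, (f ((r : ℤ) + M) - f r).natAbs, ?_, fun n => ?_⟩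
  · refine Finset.prod_pos fun r _ => ?_
    exact Int.natAbs_pos.2 (hpos r).ne'
  · obtain ⟨σ, τ, hσ, h1⟩ := h (f⁻¹ n)
    have hfn : f (f⁻¹ n) = n := f.apply_symm_apply n
    refine ⟨σ⁻¹, -τ * σ⁻¹, inv_pos.2 hσ, fun m hm => ?_⟩
    set m0 := f⁻¹ n with hm0
    set r := (m0 % M).toNat with hr
    have hrc : ((r : ℕ) : ℤ) = m0 % M := Int.toNat_of_nonneg (Int.emod_nonneg _ hMz.ne')
    have hrM : r ∈ Finset.range M := by
      rw [Finset.mem_range]
      have := Int.emod_lt_of_pos m0 hMz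
      omega
    have hrd : (M : ℤ) ∣ (r : ℤ) - m0 := by
      rw [hrc]
      have h5 : m0 % M - m0 = -(M * (m0 / M)) := by
        have := Int.emod_add_mul_ediv m0 M
        linarith
      rw [h5]
      exact (Dvd.intro _ rfl).neg_right
    have e0 := h1 r hrd
    have e1 := h1 (r + M) (by
      have h5 : (r : ℤ) + M - m0 = (r - m0) + M := by ring
      rw [h5]
      exact dvd_add hrd dvd_rfl)
    have e2 : ((f ((r : ℤ) + M) - f r : ℤ) : ℚ) = σ * M := by
      push_cast
      rw [e0, e1]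
      push_cast
      ring
    have hdv : f ((r : ℤ) + M) - f r ∣ m - n := by
      refine dvd_trans ?_ hm
      have h5 : (f ((r : ℤ) + M) - f r).natAbs ∣ ∏ r ∈ Finset.range M, (f ((r : ℤ) + M) - f r).natAbs :=
        Finset.dvd_prod_of_mem _ hrM
      exact Int.natAbs_dvd.1 (by exact_mod_cast h5)
    obtain ⟨c, hc⟩ := hdv
    have e3 := h1 m0 (by simp)
    have e4 := h1 (m0 + M * c) (by simp)
    have e5 : f (m0 + M * c) = m := by
      have h6 : ((f (m0 + M * c) : ℤ) : ℚ) = (m : ℚ) := by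
        have h7 : ((m - n : ℤ) : ℚ) = ((f ((r : ℤ) + M) - f r : ℤ) : ℚ) * c := by
          rw [hc]
          push_cast
          ring
        rw [e2] at h7
        rw [hfn] at e3
        rw [e4]
        push_cast at h7 ⊢
        linear_combination -h7 + (-1 : ℚ) * e3
      exact_mod_cast h6
    have e6 : f⁻¹ m = m0 + M * c := by
      rw [← e5]
      exact f.symm_apply_apply _
    rw [e6, ← e5, e4]
    field_simp
    ring

/-- closure induction. Class transposition: `M = m₁ m₂`, slopes `m₂ / m₁`, `m₁ / m₂`, `1`. Product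
`g * f`: if `f` is affine modulo `M` and `g` modulo `M'` then `f (n + M M' k) = f n + a M' k`, with
`a = f (n + M) - f n`, so `g * f` is affine modulo `M M'`. Inverse: if `f` is affine modulo `M`, put
`M' = ∏ (f (r + M) - f r)` over `r ∈ [0, M)`; the class of `f r` modulo `M'` is contained in the image of
the class of `r` modulo `M`. -/
theorem rcwa_of_CT {f : Equiv.Perm ℤ} (hf : f ∈ CT) : Rcwa f := by
  induction hf using Subgroup.closure_induction with
  | mem x hx => exact rcwa_ct hx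
  | one => exact ⟨1, one_pos, fun n => ⟨1, 0, one_pos, fun m _ => by simp⟩⟩
  | mul x y _ _ hx hy => exact rcwa_mul hx hy
  | inv x _ hx => exact rcwa_inv hx

private theorem data_fin (T : Finset (Equiv.Perm ℤ)) (hT : ∀ t ∈ T, Rcwa t) :
    ∃ (M : ℕ) (A : Finset (ℚ × ℚ)), 0 < M ∧ (∀ a ∈ A, 0 < a.1) ∧ ∀ t ∈ T, ∀ n : ℤ, ∃ a ∈ A,
      ∀ m : ℤ, (M : ℤ) ∣ m - n → ((t m : ℤ) : ℚ) = a.1 * m + a.2 := by
  classical
  induction T using Finset.induction_on with
  | empty => exact ⟨1, ∅, one_pos, by simp, by simp⟩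
  | insert t T _ ih =>
    obtain ⟨M, A, h1, h2, h3⟩ := ih fun t ht => hT t (Finset.mem_insert_of_mem ht)
    obtain ⟨M', hM', h4⟩ := hT t (Finset.mem_insert_self _ _)
    choose σ τ hσ hst using h4
    have hMz : (0 : ℤ) < M' := by exact_mod_cast hM'
    refine ⟨M * M', A ∪ (Finset.range M').image fun r : ℕ => (σ (r : ℤ), τ (r : ℤ)), Nat.mul_pos h1 hM', ?_, ?_⟩
    · intro a ha
      rcases Finset.mem_union.1 ha with h | h
      · exact h2 a h
      · obtain ⟨r, _, rfl⟩ := Finset.mem_image.1 h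
        exact hσ r
    · intro s hs n
      rcases Finset.mem_insert.1 hs with rfl | hs
      · have hrc : (((n % M').toNat : ℕ) : ℤ) = n % M' := Int.toNat_of_nonneg (Int.emod_nonneg _ hMz.ne')
        refine ⟨(σ ((n % M').toNat : ℕ), τ ((n % M').toNat : ℕ)), Finset.mem_union_right _
          (Finset.mem_image.2 ⟨(n % M').toNat, ?_, rfl⟩), fun m hm => ?_⟩
        · rw [Finset.mem_range]
          have := Int.emod_lt_of_pos n hMz
          omega
        · refine hst _ m ?_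
          rw [hrc]
          have h5 : m - n % M' = (m - n) + M' * (n / M') := by
            have := Int.emod_add_mul_ediv n M'
            linarith
          rw [h5]
          exact dvd_add ((Dvd.intro_left _ (by push_cast; rfl)).trans hm) (Dvd.intro _ rfl)
      · obtain ⟨a, ha, h5⟩ := h3 s hs n
        exact ⟨a, Finset.mem_union_left _ ha, fun m hm => h5 m ((Dvd.intro _ (by push_cast; rfl)).trans hm)⟩

/-- the data of a finite set of generators: common modulus, finitely many coefficients -/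
theorem exists_data (S : Finset (Equiv.Perm ℤ)) (hS : ∀ s ∈ S, s ∈ CT) :
    ∃ (M : ℕ) (A : Finset (ℚ × ℚ)), Data (S : Set (Equiv.Perm ℤ)) M A := by
  classical
  obtain ⟨M, A, h1, h2, h3⟩ := data_fin (S ∪ S.image fun s => s⁻¹) (by
    intro t ht
    rcases Finset.mem_union.1 ht with h | h
    · exact rcwa_of_CT (hS t h)
    · obtain ⟨s, hs, rfl⟩ := Finset.mem_image.1 h
      exact rcwa_of_CT (inv_mem (hS s hs)))
  refine ⟨M, A, h1, h2, fun s hs n => h3 s ?_ n⟩
  rcases hs with h | h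
  · exact Finset.mem_union_left _ h
  · exact Finset.mem_union_right _ (Finset.mem_image.2 ⟨s⁻¹, h, inv_inv s⟩)

end Pool.Agent.Grm
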