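import Pool.Agent.Grm.Defs

namespace Pool.Agent.Grm

open Pool.Agent.CTm Nat

theorem exists_collatz : ∃ T : Equiv.Perm ℤ, IsCollatz T := by
  refine ⟨⟨fun k => if k % 2 = 0 then 3 * (k / 2) else
      if k % 4 = 1 then 3 * (k / 4) + 1 else 3 * (k / 4) + 2,
    fun k => if k % 3 = 0 then 2 * (k / 3) else
      if k % 3 = 1 then 4 * (k / 3) + 1 else 4 * (k / 3) + 3, fun k => ?_, fun k => ?_⟩,
    fun n => ⟨?_, ?_, ?_⟩⟩
  · dsimp only
    split_ifs <;> omega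
  · dsimp only
    split_ifs <;> omega
  · show (if 2 * n % 2 = 0 then 3 * (2 * n / 2) else
      if 2 * n % 4 = 1 then 3 * (2 * n / 4) + 1 else 3 * (2 * n / 4) + 2) = 3 * n
    split_ifs <;> omega
  · show (if (4 * n + 1) % 2 = 0 then 3 * ((4 * n + 1) / 2) else
      if (4 * n + 1) % 4 = 1 then 3 * ((4 * n + 1) / 4) + 1 else 3 * ((4 * n + 1) / 4) + 2) =
        3 * n + 1
    split_ifs <;> omega
  · show (if (4 * n + 3) % 2 = 0 then 3 * ((4 * n + 3) / 2) else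
      if (4 * n + 3) % 4 = 1 then 3 * ((4 * n + 3) / 4) + 1 else 3 * ((4 * n + 3) / 4) + 2) =
        3 * n + 2
    split_ifs <;> omega

/-- Some `y ≡ r` modulo `m` has `N ∣ T^i y` for some `i`. -/
private def col2_R (T : Equiv.Perm ℤ) (N : ℕ) (r m : ℤ) : Prop :=
  ∃ (y : ℤ) (i : ℕ), m ∣ y - r ∧ (N : ℤ) ∣ (T ^ i) y

private theorem col2_mono {T : Equiv.Perm ℤ} {N : ℕ} {r r' m m' : ℤ} (h : col2_R T N r' m')
    (hm : m ∣ m') (hr : m ∣ r' - r) : col2_R T N r m := by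
  obtain ⟨y, i, h1, h2⟩ := h
  refine ⟨y, i, ?_, h2⟩
  have h3 := dvd_add (hm.trans h1) hr
  rwa [sub_add_sub_cancel] at h3

private theorem col2_cons {T : Equiv.Perm ℤ} {N : ℕ} {y z : ℤ} {i : ℕ} (h : T y = z)
    (h2 : (N : ℤ) ∣ (T ^ i) z) : (N : ℤ) ∣ (T ^ (i + 1)) y := by
  rw [pow_succ, Equiv.Perm.mul_apply, h]
  exact h2

private theorem col2_A {T : Equiv.Perm ℤ} (hT : IsCollatz T) {N : ℕ} {u m : ℤ}
    (h : col2_R T N (3 * u) (3 * m)) : col2_R T N (2 * u) (2 * m) := by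
  obtain ⟨z, i, ⟨k, hk⟩, h2⟩ := h
  refine ⟨2 * (u + m * k), i + 1, ⟨k, by ring⟩, col2_cons (hT (u + m * k)).1 ?_⟩
  rwa [show 3 * (u + m * k) = z by linarith]

private theorem col2_B {T : Equiv.Perm ℤ} (hT : IsCollatz T) {N : ℕ} {u m : ℤ}
    (h : col2_R T N (3 * u + 1) (3 * m)) : col2_R T N (4 * u + 1) (4 * m) := by
  obtain ⟨z, i, ⟨k, hk⟩, h2⟩ := h
  refine ⟨4 * (u + m * k) + 1, i + 1, ⟨k, by ring⟩, col2_cons (hT (u + m * k)).2.1 ?_⟩
  rwa [show 3 * (u + m * k) + 1 = z by linarith]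

private theorem col2_C {T : Equiv.Perm ℤ} (hT : IsCollatz T) {N : ℕ} {u m : ℤ}
    (h : col2_R T N (3 * u + 2) (3 * m)) : col2_R T N (4 * u + 3) (4 * m) := by
  obtain ⟨z, i, ⟨k, hk⟩, h2⟩ := h
  refine ⟨4 * (u + m * k) + 3, i + 1, ⟨k, by ring⟩, col2_cons (hT (u + m * k)).2.2 ?_⟩
  rwa [show 3 * (u + m * k) + 2 = z by linarith]

/-- Solve `K t + c ≡ r` modulo `m`. -/
private theorem col2_crt {m K : ℤ} (h : IsCoprime m K) (r c : ℤ) : ∃ t, m ∣ K * t + c - r := by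
  obtain ⟨x, y, hxy⟩ := h
  refine ⟨y * (r - c), -x * (r - c), ?_⟩
  linear_combination (r - c) * hxy

private theorem col2_odd {m : ℤ} (h : Odd m) (k : ℕ) : IsCoprime m (2 ^ k) := by
  refine IsCoprime.pow_right ?_
  obtain ⟨x, hx⟩ := h
  exact ⟨1, -x, by rw [hx]; ring⟩

private theorem col2_pow {T : Equiv.Perm ℤ} (hT : IsCollatz T) (b : ℕ) :
    ∀ w : ℤ, (T ^ b) (2 ^ b * w) = 3 ^ b * w := by
  induction b with
  | zero => intro w; simp
  | succ b ih =>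
    intro w
    have h1 : (2 : ℤ) ^ (b + 1) * w = 2 * (2 ^ b * w) := by ring
    have h2 : (3 : ℤ) * (2 ^ b * w) = 2 ^ b * (3 * w) := by ring
    rw [pow_succ, Equiv.Perm.mul_apply, h1, (hT _).1, h2, ih]
    ring

private theorem col2_zero {T : Equiv.Perm ℤ} (hT : IsCollatz T) (a b N' : ℕ)
    (h2 : Nat.Coprime 2 N') {r m : ℤ} (hm : Odd m) (hN : (N' : ℤ) ∣ m) (hr : (N' : ℤ) ∣ r) :
    col2_R T (2 ^ a * (3 ^ b * N')) r m := by
  obtain ⟨t, ht⟩ := col2_crt (col2_odd hm (a + b)) r 0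
  have h3 : (N' : ℤ) ∣ 2 ^ (a + b) * t := by
    have h4 := dvd_add (hN.trans ht) hr
    rwa [sub_add_cancel, add_zero] at h4
  have h5 : (N' : ℤ) ∣ t := by
    refine IsCoprime.dvd_of_dvd_mul_left ?_ h3
    refine IsCoprime.pow_right ?_
    exact (Nat.isCoprime_iff_coprime.2 h2.symm)
  refine ⟨2 ^ b * (2 ^ a * t), b, ?_, ?_⟩
  · rwa [show (2 : ℤ) ^ b * (2 ^ a * t) - r = 2 ^ (a + b) * t + 0 - r by ring]
  · rw [col2_pow hT]
    push_cast
    obtain ⟨s, rfl⟩ := h5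
    exact ⟨s, by ring⟩

/-- Step (2). -/
private theorem col2_two {T : Equiv.Perm ℤ} (hT : IsCollatz T) (a b N' : ℕ) (hN' : 0 < N')
    (h2 : Nat.Coprime 2 N') (h3 : Nat.Coprime 3 N') {r m : ℤ} (hm : Odd m) (hN : (N' : ℤ) ∣ m) :
    col2_R T (2 ^ a * (3 ^ b * N')) r m := by
  have : NeZero N' := ⟨hN'.ne'⟩
  obtain ⟨X, hX⟩ : ∃ X : Set (ZMod N'), ∀ ρ, ρ ∈ X ↔ ∀ m : ℤ, Odd m → (N' : ℤ) ∣ m →
      ∀ r : ℤ, (r : ZMod N') = ρ → col2_R T (2 ^ a * (3 ^ b * N')) r m :=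
    ⟨{ρ | ∀ m : ℤ, Odd m → (N' : ℤ) ∣ m →
      ∀ r : ℤ, (r : ZMod N') = ρ → col2_R T (2 ^ a * (3 ^ b * N')) r m}, fun _ => Iff.rfl⟩
  obtain ⟨q2, hq2⟩ : ∃ q : ZMod N', 2 * q = 1 := by
    refine ⟨(2 : ZMod N')⁻¹, ?_⟩
    have := ZMod.coe_mul_inv_eq_one 2 h2
    exact_mod_cast this
  obtain ⟨q3, hq3⟩ : ∃ q : ZMod N', 3 * q = 1 := by
    refine ⟨(3 : ZMod N')⁻¹, ?_⟩
    have := ZMod.coe_mul_inv_eq_one 3 h3
    exact_mod_cast this
  have hred : ∀ {x y m : ℤ}, (N' : ℤ) ∣ m → m ∣ x - y → (x : ZMod N') = y := by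
    intro x y m h1 h2
    have h4 := (ZMod.intCast_zmod_eq_zero_iff_dvd (x - y) N').2 (h1.trans h2)
    rw [Int.cast_sub, sub_eq_zero] at h4
    exact h4
  have h3m : ∀ {m : ℤ}, Odd m → Odd (3 * m) := fun h => Odd.mul (by decide) h
  have hc4 : ∀ {m : ℤ}, Odd m → IsCoprime m 4 := fun h => by
    have := col2_odd h 2
    norm_num at this
    exact this
  -- closure under the inverse of `B`, `C`
  have hB : ∀ σ ρ : ZMod N', σ ∈ X → 4 * σ = 3 * ρ + 1 → ρ ∈ X := by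
    intro σ ρ hσ he
    rw [hX] at hσ ⊢
    intro m hm hNm r hr
    obtain ⟨u, hu⟩ := col2_crt (hc4 hm) r 1
    refine col2_mono (col2_B hT (hσ (3 * m) (h3m hm) (hNm.mul_left 3) (3 * u + 1) ?_))
      (dvd_mul_left m 4) hu
    have e1 := hred hNm hu
    push_cast at e1 ⊢
    have e2 : (4 : ZMod N') * (3 * u + 1) = 4 * σ := by
      rw [he, ← hr, ← e1]
      ring
    linear_combination (q2 * q2) * e2 - (3 * (u : ZMod N') + 1 - σ) * (1 + 2 * q2) * hq2
  have hC : ∀ σ ρ : ZMod N', σ ∈ X → 4 * σ = 3 * ρ - 1 → ρ ∈ X := by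
    intro σ ρ hσ he
    rw [hX] at hσ ⊢
    intro m hm hNm r hr
    obtain ⟨u, hu⟩ := col2_crt (hc4 hm) r 3
    refine col2_mono (col2_C hT (hσ (3 * m) (h3m hm) (hNm.mul_left 3) (3 * u + 2) ?_))
      (dvd_mul_left m 4) hu
    have e1 := hred hNm hu
    push_cast at e1 ⊢
    have e2 : (4 : ZMod N') * (3 * u + 2) = 4 * σ := by
      rw [he, ← hr, ← e1]
      ring
    linear_combination (q2 * q2) * e2 - (3 * (u : ZMod N') + 2 - σ) * (1 + 2 * q2) * hq2
  -- `B` itself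
  have hg : (fun σ : ZMod N' => q3 * (4 * σ - 1)) '' X = X := by
    have hin : Function.Injective fun σ : ZMod N' => q3 * (4 * σ - 1) := by
      intro x y hxy
      have h5 : q3 * (4 * x - 1) = q3 * (4 * y - 1) := hxy
      have h6 : (4 : ZMod N') * x = 4 * y := by
        linear_combination 3 * h5 - (4 * x - 4 * y) * hq3
      linear_combination (q2 * q2) * h6 - (x - y) * (1 + 2 * q2) * hq2
    refine Set.eq_of_subset_of_ncard_le ?_ (le_of_eq (Set.ncard_image_of_injective X hin).symm)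
      (Set.toFinite X)
    rintro _ ⟨σ, hσ, rfl⟩
    refine hB σ _ hσ ?_
    linear_combination -(4 * σ - 1) * hq3
  have hadd : ∀ σ ∈ X, σ + q2 ∈ X := by
    intro σ hσ
    have t1 : q3 * (4 * σ + 1) ∈ X := hC σ _ hσ (by linear_combination -(4 * σ + 1) * hq3)
    rw [← hg] at t1
    obtain ⟨τ, hτ, he⟩ := t1
    have he' : q3 * (4 * τ - 1) = q3 * (4 * σ + 1) := he
    have h6 : (4 : ZMod N') * τ = 4 * σ + 2 := by
      linear_combination 3 * he' - (4 * τ - 4 * σ - 2) * hq3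
    have h7 : σ + q2 = τ := by
      linear_combination -(q2 * q2) * h6 + (τ - σ) * (1 + 2 * q2) * hq2 - q2 * hq2
    rw [h7]
    exact hτ
  have h0 : (0 : ZMod N') ∈ X := by
    rw [hX]
    intro m hm hNm r hr
    exact col2_zero hT a b N' h2 hm hNm ((ZMod.intCast_zmod_eq_zero_iff_dvd r N').1 hr)
  have hn : ∀ n : ℕ, (n : ZMod N') * q2 ∈ X := by
    intro n
    induction n with
    | zero =>
      rw [Nat.cast_zero, zero_mul]
      exact h0
    | succ n ih =>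
      rw [Nat.cast_succ, add_mul, one_mul]
      exact hadd _ ih
  have hall : ∀ ρ : ZMod N', ρ ∈ X := by
    intro ρ
    have h5 := hn (2 * ρ.val)
    rw [Nat.cast_mul, ZMod.natCast_zmod_val, Nat.cast_ofNat] at h5
    rwa [show (2 : ZMod N') * ρ * q2 = ρ by linear_combination ρ * hq2] at h5
  exact (hX _).1 (hall (r : ZMod N')) m hm hN r rfl

private theorem col2_three {T : Equiv.Perm ℤ} (hT : IsCollatz T) {N : ℕ}
    (h : ∀ r m : ℤ, Odd m → col2_R T N r m) (c : ℕ) :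
    ∀ r m : ℤ, Odd m → col2_R T N r (2 ^ c * m) := by
  induction c using Nat.strong_induction_on with
  | _ c ih =>
    intro r m hm
    have h3m : Odd (3 * m) := Odd.mul (by decide) hm
    -- odd `r`, modulus `4 * 2 ^ e * m`
    have hodd : ∀ e, (∀ r m : ℤ, Odd m → col2_R T N r (2 ^ e * m)) → r % 2 = 1 →
        col2_R T N r (4 * (2 ^ e * m)) := by
      intro e he hr
      rcases (by omega : r % 4 = 1 ∨ r % 4 = 3) with h4 | h4
      · have h5 := he (3 * (r / 4) + 1) (3 * m) h3m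
        rw [show (2 : ℤ) ^ e * (3 * m) = 3 * (2 ^ e * m) by ring] at h5
        have h6 := col2_B hT h5
        rwa [show 4 * (r / 4) + 1 = r by omega] at h6
      · have h5 := he (3 * (r / 4) + 2) (3 * m) h3m
        rw [show (2 : ℤ) ^ e * (3 * m) = 3 * (2 ^ e * m) by ring] at h5
        have h6 := col2_C hT h5
        rwa [show 4 * (r / 4) + 3 = r by omega] at h6
    rcases Nat.eq_zero_or_pos c with rfl | hc
    · rw [pow_zero, one_mul]
      exact h r m hm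
    · obtain ⟨d, rfl⟩ : ∃ d, c = d + 1 := ⟨c - 1, by omega⟩
      rcases (by omega : r % 2 = 0 ∨ r % 2 = 1) with hr | hr
      · have h5 := ih d (by omega) (3 * (r / 2)) (3 * m) h3m
        rw [show (2 : ℤ) ^ d * (3 * m) = 3 * (2 ^ d * m) by ring] at h5
        have h6 := col2_A hT h5
        rwa [show 2 * (r / 2) = r by omega, show (2 : ℤ) * (2 ^ d * m) = 2 ^ (d + 1) * m by ring]
          at h6
      · rcases Nat.eq_zero_or_pos d with rfl | hd
        · have h5 := hodd 0 (ih 0 (by omega)) hr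
          exact col2_mono h5 ⟨2, by ring⟩ (by rw [sub_self]; exact dvd_zero _)
        · obtain ⟨e, rfl⟩ : ∃ e, d = e + 1 := ⟨d - 1, by omega⟩
          have h5 := hodd e (ih e (by omega)) hr
          rwa [show (4 : ℤ) * (2 ^ e * m) = 2 ^ (e + 1 + 1) * m by ring] at h5

/-- Every residue class contains a point whose forward orbit enters `0 + N ℤ`.
Write `N = 2^a 3^b N'` with `N'` prime to `6`. Say `Reach r m` if some `y ≡ r` modulo `m` has
`T^i y ≡ 0` modulo `N` for some `i`.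
(1) `m` odd, `N' ∣ m`, `r ≡ 0` modulo `N'`: choose `y ≡ r` modulo `m`, `y ≡ 0` modulo `2^(a+b)`: `T^b y = (3/2)^b y`.
(2) `m` odd, `N' ∣ m`: the set `X` of the residues `ρ` modulo `N'` such that `Reach r m` for all such `m` and
all `r ≡ ρ`, is closed under the inverses of `ρ ↦ 3ρ/2`, `ρ ↦ (3ρ+1)/4`, `ρ ↦ (3ρ-1)/4` (restrict the class to `r' ≡ 0`
modulo `2`, `r' ≡ 1, 3` modulo `4`, apply `T`: the image is a class modulo `3 m`), so as a finite set also under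
these maps, hence under `B C⁻¹ : ρ ↦ ρ + 1/2`, and it contains `0`: all residues.
(3) `m` odd: replace `m` by `m N'`. (4) `m = 2^c m'`, `m'` odd: strong induction on `c`: `r` even: `T` maps the class
onto the class of `3r/2` modulo `2^(c-1) 3 m'`; `r` odd, `c ≥ 2`: onto a class modulo `2^(c-2) 3 m'`; `c = 1`, `r` odd: pass to
a class modulo `4 m'`. -/
theorem collatz_reach {T : Equiv.Perm ℤ} (hT : IsCollatz T) (r : ℤ) (m N : ℕ) (hm : 0 < m)
    (hN : 0 < N) : ∃ (y : ℤ) (i : ℕ), (m : ℤ) ∣ y - r ∧ (N : ℤ) ∣ (T ^ i) y := by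
  obtain ⟨a, N1, ha, rfl⟩ := Nat.exists_eq_pow_mul_and_not_dvd hN.ne' 2 (by norm_num)
  have hN1 : N1 ≠ 0 := fun h => ha (h ▸ dvd_zero 2)
  obtain ⟨b, N', hb, rfl⟩ := Nat.exists_eq_pow_mul_and_not_dvd hN1 3 (by norm_num)
  have hN' : 0 < N' := Nat.pos_of_ne_zero fun h => hb (h ▸ dvd_zero 3)
  have h2 : Nat.Coprime 2 N' :=
    (Nat.Prime.coprime_iff_not_dvd Nat.prime_two).2 fun h => ha (h.mul_left _)
  have h3 : Nat.Coprime 3 N' := (Nat.Prime.coprime_iff_not_dvd Nat.prime_three).2 hb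
  have hodd' : Odd (N' : ℤ) := by
    rw [Int.odd_iff]
    have h4 : ¬ 2 ∣ N' := fun h => ha (h.mul_left _)
    omega
  have h4 : ∀ r m : ℤ, Odd m → col2_R T (2 ^ a * (3 ^ b * N')) r m := fun r m hm =>
    col2_mono (col2_two hT a b N' hN' h2 h3 (m := m * N') (hm.mul hodd') (dvd_mul_left _ _))
      (dvd_mul_right m _) (by rw [sub_self]; exact dvd_zero _)
  obtain ⟨c, m', hc, rfl⟩ := Nat.exists_eq_pow_mul_and_not_dvd hm.ne' 2 (by norm_num)
  have h5 := col2_three hT h4 c r m' (by rw [Int.odd_iff]; omega)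
  obtain ⟨y, i, h6, h7⟩ := h5
  refine ⟨y, i, ?_, h7⟩
  push_cast
  exact h6

end Pool.Agent.Grm
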