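import Pool.Agent.Grm.Main

/-!
# Subgroups of `CT(ℤ)` which contain a conjugate of a power of the Collatz permutation

The Collatz permutation `2 n ↦ 3 n`, `4 n + 1 ↦ 3 n + 1`, `4 n + 3 ↦ 3 n + 2` is in `CT(ℤ)`, and every
finitely generated subgroup of `CT(ℤ)` which contains a conjugate of one of its positive powers has
polynomially bounded or exponential growth.
-/

namespace Pool.Agent.Grm.CollatzPowers

open Filter Pool.Agent.CTm Pool.Agent.Grm Nat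

theorem result : ∃ T ∈ CT, IsCollatz T ∧ ∀ (S : Finset (Equiv.Perm ℤ)), (∀ s ∈ S, s ∈ CT) →
    (∃ k : ℕ, 0 < k ∧ ∃ g ∈ CT, g * T ^ k * g⁻¹ ∈
      Subgroup.closure (S : Set (Equiv.Perm ℤ))) →
    ((∃ C d : ℕ, ∀ n : ℕ, 1 ≤ n → growth (S : Set (Equiv.Perm ℤ)) n ≤ C * n ^ d) ∨
      ∃ c : ℝ, 1 < c ∧ ∀ᶠ n : ℕ in atTop, c ^ n ≤ growth (S : Set (Equiv.Perm ℤ)) n) ∧
    ¬ IntermediateGrowth (S : Set (Equiv.Perm ℤ)) := by
  obtain ⟨T, hT⟩ := exists_collatz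
  refine ⟨T, collatz_mem hT, hT, fun S hS => ?_⟩
  rintro ⟨k, hk, g, hg, h1⟩
  have h := alt_collatz_conj S hS hT hk hg h1
  exact ⟨h, h.elim not_intermediate_of_poly not_intermediate_of_exp⟩

end Pool.Agent.Grm.CollatzPowers
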