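import Pool.Agent.Grm.Collatz

/-!
# The Collatz permutation is a product of class transpositions
-/

namespace Pool.Agent.Grm

open Pool.Agent.CTm

/-- the class transposition as a function -/
def ctf (t : ℤ × ℤ × ℤ × ℤ) (n : ℤ) : ℤ :=
  if (n - t.1) % t.2.1 = 0 then t.2.2.1 + (n - t.1) / t.2.1 * t.2.2.2
  else if (n - t.2.2.1) % t.2.2.2 = 0 then t.1 + (n - t.2.2.1) / t.2.2.2 * t.2.1 else n

/-- good parameters -/
def Gd (t : ℤ × ℤ × ℤ × ℤ) : Prop :=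
  0 ≤ t.1 ∧ t.1 < t.2.1 ∧ 0 ≤ t.2.2.1 ∧ t.2.2.1 < t.2.2.2 ∧
    (t.1 - t.2.2.1) % (Int.gcd t.2.1 t.2.2.2 : ℤ) ≠ 0

instance (t : ℤ × ℤ × ℤ × ℤ) : Decidable (Gd t) := by unfold Gd; infer_instance

theorem Gd.disj {t : ℤ × ℤ × ℤ × ℤ} (ht : Gd t) (k l : ℤ) :
    t.1 + k * t.2.1 ≠ t.2.2.1 + l * t.2.2.2 := by
  intro h
  apply ht.2.2.2.2
  have h1 : ((Int.gcd t.2.1 t.2.2.2 : ℕ) : ℤ) ∣ t.2.1 := Int.gcd_dvd_left _ _
  have h2 : ((Int.gcd t.2.1 t.2.2.2 : ℕ) : ℤ) ∣ t.2.2.2 := Int.gcd_dvd_right _ _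
  apply Int.emod_eq_zero_of_dvd
  have h3 : t.1 - t.2.2.1 = l * t.2.2.2 - k * t.2.1 := by linarith
  rw [h3]
  exact dvd_sub (Dvd.dvd.mul_left h2 _) (Dvd.dvd.mul_left h1 _)

theorem ctf_left {t : ℤ × ℤ × ℤ × ℤ} (ht : Gd t) (k : ℤ) :
    ctf t (t.1 + k * t.2.1) = t.2.2.1 + k * t.2.2.2 := by
  have hm : 0 < t.2.1 := by have := ht.1; have := ht.2.1; omega
  have e : t.1 + k * t.2.1 - t.1 = k * t.2.1 := by ring
  unfold ctf
  rw [e, Int.mul_emod_left, if_pos rfl, Int.mul_ediv_cancel _ hm.ne']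

theorem ctf_right {t : ℤ × ℤ × ℤ × ℤ} (ht : Gd t) (k : ℤ) :
    ctf t (t.2.2.1 + k * t.2.2.2) = t.1 + k * t.2.1 := by
  have hm : 0 < t.2.2.2 := by have := ht.2.2.1; have := ht.2.2.2.1; omega
  have e : t.2.2.1 + k * t.2.2.2 - t.2.2.1 = k * t.2.2.2 := by ring
  have h1 : ¬ (t.2.2.1 + k * t.2.2.2 - t.1) % t.2.1 = 0 := by
    intro h
    obtain ⟨l, hl⟩ := Int.dvd_of_emod_eq_zero h
    exact ht.disj l k (by linarith)
  unfold ctf
  rw [if_neg h1, e, Int.mul_emod_left, if_pos rfl, Int.mul_ediv_cancel _ hm.ne']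

theorem ctf_other {t : ℤ × ℤ × ℤ × ℤ} {n : ℤ} (h1 : ∀ k : ℤ, n ≠ t.1 + k * t.2.1)
    (h2 : ∀ k : ℤ, n ≠ t.2.2.1 + k * t.2.2.2) : ctf t n = n := by
  unfold ctf
  rw [if_neg, if_neg]
  · intro h
    obtain ⟨l, hl⟩ := Int.dvd_of_emod_eq_zero h
    exact h2 l (by linarith)
  · intro h
    obtain ⟨l, hl⟩ := Int.dvd_of_emod_eq_zero h
    exact h1 l (by linarith)

theorem ctf_inv {t : ℤ × ℤ × ℤ × ℤ} (ht : Gd t) : Function.Involutive (ctf t) := by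
  intro n
  by_cases h1 : ∃ k : ℤ, n = t.1 + k * t.2.1
  · obtain ⟨k, rfl⟩ := h1
    rw [ctf_left ht, ctf_right ht]
  · by_cases h2 : ∃ k : ℤ, n = t.2.2.1 + k * t.2.2.2
    · obtain ⟨k, rfl⟩ := h2
      rw [ctf_right ht, ctf_left ht]
    · push Not at h1 h2
      rw [ctf_other h1 h2, ctf_other h1 h2]

/-- the class transposition as a permutation -/
def ctp (t : ℤ × ℤ × ℤ × ℤ) (ht : Gd t) : Equiv.Perm ℤ := (ctf_inv ht).toPerm

theorem ctp_mem (t : ℤ × ℤ × ℤ × ℤ) (ht : Gd t) : ctp t ht ∈ CT := by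
  refine Subgroup.subset_closure ⟨t.1, t.2.1, t.2.2.1, t.2.2.2, ht.1, ht.2.1, ht.2.2.1,
    ht.2.2.2.1, ht.disj, fun k => ⟨ctf_left ht k, ctf_right ht k⟩, fun n h1 h2 => ctf_other h1 h2⟩

/-- the image of a class -/
def stc (t : ℤ × ℤ × ℤ × ℤ) (c : ℤ × ℤ) : Option (ℤ × ℤ) :=
  if c.2 % t.2.1 = 0 ∧ (c.1 - t.1) % t.2.1 = 0 then
    some (t.2.2.1 + (c.1 - t.1) / t.2.1 * t.2.2.2, c.2 / t.2.1 * t.2.2.2)
  else if c.2 % t.2.2.2 = 0 ∧ (c.1 - t.2.2.1) % t.2.2.2 = 0 then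
    some (t.1 + (c.1 - t.2.2.1) / t.2.2.2 * t.2.1, c.2 / t.2.2.2 * t.2.1)
  else if (c.1 - t.1) % (Int.gcd c.2 t.2.1 : ℤ) ≠ 0 ∧
      (c.1 - t.2.2.1) % (Int.gcd c.2 t.2.2.2 : ℤ) ≠ 0 then some c else none

theorem stc_sound {t : ℤ × ℤ × ℤ × ℤ} (ht : Gd t) {c d : ℤ × ℤ} (h : stc t c = some d) (k : ℤ) :
    ctf t (c.1 + c.2 * k) = d.1 + d.2 * k := by
  have hm1 : 0 < t.2.1 := by have := ht.1; have := ht.2.1; omega
  have hm2 : 0 < t.2.2.2 := by have := ht.2.2.1; have := ht.2.2.2.1; omega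
  unfold stc at h
  split_ifs at h with h1 h2 h3
  · obtain ⟨a1, a2⟩ := h1
    obtain ⟨u, hu⟩ := Int.dvd_of_emod_eq_zero a1
    obtain ⟨v, hv⟩ := Int.dvd_of_emod_eq_zero a2
    have e1 : c.1 + c.2 * k = t.1 + (v + u * k) * t.2.1 := by
      rw [hu]; linarith [hv, mul_comm t.2.1 v, show t.2.1 * u * k = u * k * t.2.1 by ring]
    rw [e1, ctf_left ht]
    simp only [Option.some.injEq] at h
    rw [← h, hv, hu, Int.mul_ediv_cancel_left _ hm1.ne', Int.mul_ediv_cancel_left _ hm1.ne']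
    ring
  · obtain ⟨a1, a2⟩ := h2
    obtain ⟨u, hu⟩ := Int.dvd_of_emod_eq_zero a1
    obtain ⟨v, hv⟩ := Int.dvd_of_emod_eq_zero a2
    have e1 : c.1 + c.2 * k = t.2.2.1 + (v + u * k) * t.2.2.2 := by
      rw [hu]; linarith [hv, mul_comm t.2.2.2 v, show t.2.2.2 * u * k = u * k * t.2.2.2 by ring]
    rw [e1, ctf_right ht]
    simp only [Option.some.injEq] at h
    rw [← h, hv, hu, Int.mul_ediv_cancel_left _ hm2.ne', Int.mul_ediv_cancel_left _ hm2.ne']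
    ring
  · obtain ⟨a1, a2⟩ := h3
    simp only [Option.some.injEq] at h
    rw [← h]
    apply ctf_other
    · intro l hl
      apply a1
      apply Int.emod_eq_zero_of_dvd
      have e : c.1 - t.1 = l * t.2.1 - c.2 * k := by linarith
      rw [e]
      exact dvd_sub (Dvd.dvd.mul_left (Int.gcd_dvd_right _ _) _)
        (Dvd.dvd.mul_right (Int.gcd_dvd_left _ _) _)
    · intro l hl
      apply a2
      apply Int.emod_eq_zero_of_dvd
      have e : c.1 - t.2.2.1 = l * t.2.2.2 - c.2 * k := by linarith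
      rw [e]
      exact dvd_sub (Dvd.dvd.mul_left (Int.gcd_dvd_right _ _) _)
        (Dvd.dvd.mul_right (Int.gcd_dvd_left _ _) _)

/-- the image of a class under a word, first letter first -/
def evc : List (ℤ × ℤ × ℤ × ℤ) → ℤ × ℤ → Option (ℤ × ℤ)
  | [], c => some c
  | t :: l, c => match stc t c with
    | none => none
    | some d => evc l d

/-- a word of good letters gives an element of the group with these values -/
theorem evc_sound (l : List (ℤ × ℤ × ℤ × ℤ)) (hl : ∀ t ∈ l, Gd t) :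
    ∃ f ∈ CT, ∀ c d : ℤ × ℤ, evc l c = some d → ∀ k : ℤ, f (c.1 + c.2 * k) = d.1 + d.2 * k := by
  induction l with
  | nil =>
    refine ⟨1, CT.one_mem, fun c d h k => ?_⟩
    simp only [evc, Option.some.injEq] at h
    rw [h]
    rfl
  | cons t l ih =>
    obtain ⟨f, hf, h1⟩ := ih fun u hu => hl u (List.mem_cons_of_mem _ hu)
    have ht := hl t List.mem_cons_self
    refine ⟨f * ctp t ht, CT.mul_mem hf (ctp_mem t ht), fun c d h k => ?_⟩
    rw [Equiv.Perm.mul_apply]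
    simp only [evc] at h
    cases hs : stc t c with
    | none => rw [hs] at h; simp at h
    | some e =>
      rw [hs] at h
      have h2 := stc_sound ht hs k
      have h3 : ctp t ht (c.1 + c.2 * k) = e.1 + e.2 * k := h2
      rw [h3]
      exact h1 e d h k

/-- the factorisation -/
def wd77 : List (ℤ × ℤ × ℤ × ℤ) := [
  (0, 2, 1, 2), (1, 2, 2, 4), (0, 8, 1, 6), (4, 8, 5, 6), (0, 4, 1, 6), (2, 4, 5, 6), (1, 12,
  2, 6), (4, 6, 7, 12), (2, 6, 5, 6), (5, 6, 8, 12), (2, 24, 5, 18), (14, 24, 17, 18), (2, 12,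
  5, 18), (8, 12, 17, 18), (5, 36, 8, 18), (14, 18, 23, 36), (2, 6, 4, 6), (2, 6, 5, 6), (5,
  6, 8, 12), (2, 24, 5, 18), (14, 24, 17, 18), (2, 12, 5, 18), (8, 12, 17, 18), (5, 36, 8,
  18), (14, 18, 23, 36), (2, 6, 4, 6), (2, 6, 3, 6), (2, 6, 5, 6), (5, 6, 8, 12), (2, 24, 5,
  18), (14, 24, 17, 18), (2, 12, 5, 18), (8, 12, 17, 18), (5, 36, 8, 18), (14, 18, 23, 36),
  (2, 6, 3, 6), (1, 6, 2, 6), (2, 6, 5, 6), (5, 6, 8, 12), (2, 24, 5, 18), (14, 24, 17, 18),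
  (2, 12, 5, 18), (8, 12, 17, 18), (5, 36, 8, 18), (14, 18, 23, 36), (1, 6, 2, 6), (0, 6, 2,
  6), (2, 6, 5, 6), (5, 6, 8, 12), (2, 24, 5, 18), (14, 24, 17, 18), (2, 12, 5, 18), (8, 12,
  17, 18), (5, 36, 8, 18), (14, 18, 23, 36), (0, 6, 2, 6), (7, 9, 8, 9), (6, 9, 8, 9), (5, 9,
  6, 9), (4, 9, 5, 9), (3, 9, 6, 9), (2, 9, 4, 9), (1, 9, 7, 9), (0, 9, 6, 9), (1, 9, 12, 18),
  (1, 9, 3, 18), (1, 9, 30, 36), (3, 18, 12, 36), (7, 9, 9, 18), (4, 9, 27, 36), (4, 9, 9,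
  36), (12, 36, 15, 18), (0, 18, 27, 72), (2, 18, 27, 72), (5, 18, 6, 18), (4, 9, 30, 72), (8,
  18, 30, 72)]

/-- the expected image of the class of `r` modulo `96` -/
def exq (r : ℤ) : ℤ × ℤ :=
  if r % 2 = 0 then (3 * r / 2, 144) else if r % 4 = 1 then ((3 * r + 1) / 4, 72)
    else ((3 * r - 1) / 4, 72)

theorem wd_good : ∀ t ∈ wd77, Gd t := by decide +kernel

theorem wd_val : ∀ r ∈ List.range 96, evc wd77 ((r : ℤ), 96) = some (exq r) := by decide +kernel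

/-- the Collatz permutation is an element of `CT(ℤ)` -/
theorem collatz_mem {T : Equiv.Perm ℤ} (hT : IsCollatz T) : T ∈ CT := by
  obtain ⟨f, hf, h1⟩ := evc_sound wd77 wd_good
  have e : T = f := by
    ext n
    have hr1 : 0 ≤ n % 96 := Int.emod_nonneg _ (by norm_num)
    have hr2 : n % 96 < 96 := Int.emod_lt_of_pos _ (by norm_num)
    obtain ⟨r, hr⟩ := Int.eq_ofNat_of_zero_le hr1
    have h2 := wd_val r (List.mem_range.2 (by omega))
    have h3 := h1 _ _ h2 (n / 96)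
    have e1 : ((r : ℤ), (96 : ℤ)).1 + ((r : ℤ), (96 : ℤ)).2 * (n / 96) = n := by
      simp only
      omega
    rw [e1] at h3
    rw [h3]
    unfold exq
    split_ifs with a1 a2
    · have e2 : n = 2 * ((r : ℤ) / 2 + 48 * (n / 96)) := by omega
      have := (hT ((r : ℤ) / 2 + 48 * (n / 96))).1
      rw [← e2] at this
      rw [this]
      simp only
      omega
    · have e2 : n = 4 * ((r : ℤ) / 4 + 24 * (n / 96)) + 1 := by omega
      have := (hT ((r : ℤ) / 4 + 24 * (n / 96))).2.1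
      rw [← e2] at this
      rw [this]
      simp only
      omega
    · have e2 : n = 4 * ((r : ℤ) / 4 + 24 * (n / 96)) + 3 := by omega
      have := (hT ((r : ℤ) / 4 + 24 * (n / 96))).2.2
      rw [← e2] at this
      rw [this]
      simp only
      omega
  rw [e]
  exact hf

end Pool.Agent.Grm
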