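import Pool.Agent.CTm.Growth

/-!
# Groups with finite germ stabilisers: definitions

`S` is a finite set in a group, `ball S n`, `growth S n` as in `Pool.Agent.CTm.Defs`.
-/

namespace Pool.Agent.Grm

open Pool.Agent.CTm Filter Topology Nat

/-- the inner boundary of `F` in the Cayley graph (left multiplication by the generators) -/
def bdry {G : Type*} [Group G] (S : Set G) (F : Set G) : Set G :=
  {h | h ∈ F ∧ ∃ s, (s ∈ S ∨ s⁻¹ ∈ S) ∧ s * h ∉ F}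

/-- the linear isoperimetric inequality with constant `ε` (so the group generated by `S` is not
amenable if `ε > 0`) -/
def NonAmen {G : Type*} [Group G] (S : Set G) (ε : ℝ) : Prop :=
  ∀ F : Set G, F.Finite → F ⊆ Subgroup.closure S → ε * F.ncard ≤ (bdry S F).ncard

/-- a profinite integer: a sequence with `x (j + 1) ≡ x j` modulo `j!` -/
def Pro (x : ℕ → ℤ) : Prop := ∀ j : ℕ, ((j ! : ℕ) : ℤ) ∣ x (j + 1) - x j

/-- `h` is the identity on a residue class around the profinite integer `x` -/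
def FixNear (x : ℕ → ℤ) (h : Equiv.Perm ℤ) : Prop :=
  ∃ j : ℕ, ∀ n : ℤ, ((j ! : ℕ) : ℤ) ∣ n - x j → h n = n

/-- `h` fixes the profinite integer `x` -/
def FixPt (x : ℕ → ℤ) (h : Equiv.Perm ℤ) : Prop :=
  ∀ j : ℕ, ∃ i : ℕ, ∀ n : ℤ, ((i ! : ℕ) : ℤ) ∣ n - x i → ((j ! : ℕ) : ℤ) ∣ h n - x j

/-- The residue class `r + m ℤ` is linked to `x` by the powers of an element `T` of `H` which fixes
`x`: these powers map integers which are arbitrarily close to `x` into the class. -/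
def Linked (H : Subgroup (Equiv.Perm ℤ)) (x : ℕ → ℤ) (r : ℤ) (m : ℕ) : Prop :=
  ∃ T ∈ H, FixPt x T ∧ ∀ j : ℕ, ∃ (i : ℤ) (y : ℤ), ((j ! : ℕ) : ℤ) ∣ y - x j ∧
    (m : ℤ) ∣ (T ^ i) y - r

/-- `T` is the Collatz permutation: `2 n ↦ 3 n`, `4 n + 1 ↦ 3 n + 1`, `4 n + 3 ↦ 3 n + 2` -/
def IsCollatz (T : Equiv.Perm ℤ) : Prop :=
  ∀ n : ℤ, T (2 * n) = 3 * n ∧ T (4 * n + 1) = 3 * n + 1 ∧ T (4 * n + 3) = 3 * n + 2

/-- the coordinates: `v` has values in a lattice, `ξ` is the real position and `w` the scale -/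
structure Coord {G : Type*} [Group G] (S : Set G) {ι : Type*} (v : G → ι → ℤ) (ξ w : G → ℝ)
    (D : ℕ) (C : ℝ) (κ : ℕ) : Prop where
  v_lip : ∀ h ∈ Subgroup.closure S, ∀ s, (s ∈ S ∨ s⁻¹ ∈ S) → ∀ p, |v (s * h) p - v h p| ≤ D
  xi_lip : ∀ h ∈ Subgroup.closure S, ∀ s, (s ∈ S ∨ s⁻¹ ∈ S) → |ξ (s * h) - ξ h| ≤ C * w h
  fin : ∀ (v0 : ι → ℤ) (c : ℝ),
    {h | h ∈ Subgroup.closure S ∧ v h = v0 ∧ |ξ h - c| ≤ C * w h}.Finite
  cnt : ∀ (v0 : ι → ℤ) (c : ℝ),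
    {h | h ∈ Subgroup.closure S ∧ v h = v0 ∧ |ξ h - c| ≤ C * w h}.ncard ≤ κ

/-- `f` is affine, with positive rational slopes, on the residue classes of some modulus -/
def Rcwa (f : Equiv.Perm ℤ) : Prop :=
  ∃ M : ℕ, 0 < M ∧ ∀ n : ℤ, ∃ σ τ : ℚ, 0 < σ ∧
    ∀ m : ℤ, (M : ℤ) ∣ m - n → ((f m : ℤ) : ℚ) = σ * m + τ

/-- the generators are affine on the classes modulo `M`, with coefficients in `A` -/
structure Data (S : Set (Equiv.Perm ℤ)) (M : ℕ) (A : Finset (ℚ × ℚ)) : Prop where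
  pos : 0 < M
  slope : ∀ a ∈ A, 0 < a.1
  aff : ∀ s, (s ∈ S ∨ s⁻¹ ∈ S) → ∀ n : ℤ, ∃ a ∈ A, ∀ m : ℤ, (M : ℤ) ∣ m - n →
    ((s m : ℤ) : ℚ) = a.1 * m + a.2

/-- the germ of `h` at `x` is `n ↦ a.1 n + a.2` -/
def Germ (x : ℕ → ℤ) (h : Equiv.Perm ℤ) (a : ℚ × ℚ) : Prop :=
  ∃ j : ℕ, ∀ n : ℤ, ((j ! : ℕ) : ℤ) ∣ n - x j → ((h n : ℤ) : ℚ) = a.1 * n + a.2

end Pool.Agent.Grm
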