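import Pool.Agent.Grm.Defs

namespace Pool.Agent.Grm

open Pool.Agent.CTm

variable {G : Type*} [Group G]

/-- a word moves at most `R |bdry S F|` elements of `F` out of `F` -/
theorem iso_word {S : Set G} {F : Set G} (hF : F.Finite) (l : List G)
    (hl : ∀ x ∈ l, x ∈ S ∨ x⁻¹ ∈ S) :
    {f | f ∈ F ∧ l.prod * f ∉ F}.ncard ≤ l.length * (bdry S F).ncard := by
  induction l with
  | nil =>
    have h0 : {f | f ∈ F ∧ (List.nil : List G).prod * f ∉ F} = ∅ := by
      ext f
      simp only [List.prod_nil, one_mul, Set.mem_setOf_eq, Set.mem_empty_iff_false, iff_false,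
        not_and, not_not]
      exact fun h => h
    rw [h0]
    simp
  | cons s l ih =>
    have ih' := ih fun x hx => hl x (List.mem_cons_of_mem _ hx)
    have hs := hl s List.mem_cons_self
    have hbF : (bdry S F).Finite := hF.subset fun x hx => hx.1
    have hsub : {f | f ∈ F ∧ (s :: l).prod * f ∉ F} ⊆
        {f | f ∈ F ∧ l.prod * f ∉ F} ∪ {f | f ∈ F ∧ l.prod * f ∈ bdry S F} := by
      rintro f ⟨h1, h2⟩
      by_cases h3 : l.prod * f ∈ F
      · right
        refine ⟨h1, h3, s, hs, ?_⟩
        rwa [List.prod_cons, mul_assoc] at h2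
      · left
        exact ⟨h1, h3⟩
    have hinj : {f | f ∈ F ∧ l.prod * f ∈ bdry S F}.ncard ≤ (bdry S F).ncard := by
      refine Set.ncard_le_ncard_of_injOn (fun f => l.prod * f) (fun f hf => hf.2) ?_ hbF
      intro a _ b _ hab
      exact mul_left_cancel hab
    calc {f | f ∈ F ∧ (s :: l).prod * f ∉ F}.ncard
        ≤ ({f | f ∈ F ∧ l.prod * f ∉ F} ∪ {f | f ∈ F ∧ l.prod * f ∈ bdry S F}).ncard :=
          Set.ncard_le_ncard hsub ((hF.subset fun x hx => hx.1).union (hF.subset fun x hx => hx.1))
      _ ≤ _ := Set.ncard_union_le _ _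
      _ ≤ l.length * (bdry S F).ncard + (bdry S F).ncard := Nat.add_le_add ih' hinj
      _ = _ := by rw [List.length_cons]; ring

/-- Isoperimetric inequality of Coulhon and Saloff-Coste. -/
theorem iso {S : Set G} (hS : S.Finite) {F : Set G} (hF : F.Finite) (R : ℕ)
    (h2 : 2 * F.ncard ≤ growth S R) : F.ncard ≤ 2 * R * (bdry S F).ncard := by
  classical
  by_contra hcon
  push Not at hcon
  have hB : (ball S R).Finite := ball_finite hS R
  -- for every `g` in the ball, at most `R |bdry|` elements leave `F`
  have h3 : ∀ g ∈ ball S R, {f | f ∈ F ∧ g * f ∉ F}.ncard ≤ R * (bdry S F).ncard := by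
    rintro g ⟨l, h4, h5, rfl⟩
    exact (iso_word hF l h5).trans (Nat.mul_le_mul_right _ h4)
  lift F to Finset G using hF
  set B : Finset G := hB.toFinset with hBdef
  have hBc : B.card = growth S R := by
    rw [growth, Set.ncard_eq_toFinset_card _ hB]
  have hFc : (F : Set G).ncard = F.card := Set.ncard_coe_finset F
  rw [hFc] at h2 hcon
  -- the double count
  have hst : ∀ g ∈ B, 2 * (F.filter fun f => g * f ∈ F).card > F.card := by
    intro g hg
    have h4 := h3 g ((Set.Finite.mem_toFinset hB).1 hg)
    have h5 : {f | f ∈ (F : Set G) ∧ g * f ∉ (F : Set G)}.ncard =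
        (F.filter fun f => g * f ∉ F).card := by
      rw [← Set.ncard_coe_finset]
      congr 1
      ext f
      simp
    rw [h5] at h4
    have h6 := Finset.card_filter_add_card_filter_not (s := F) (fun f => g * f ∈ F)
    nlinarith
  have hsum : ∑ g ∈ B, (F.filter fun f => g * f ∈ F).card ≤ F.card * F.card := by
    have h4 : ∑ g ∈ B, (F.filter fun f => g * f ∈ F).card =
        ((B ×ˢ F).filter fun p => p.1 * p.2 ∈ F).card := by
      rw [Finset.card_filter, Finset.sum_product]
      refine Finset.sum_congr rfl fun g _ => ?_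
      rw [Finset.card_filter]
    rw [h4, ← Finset.card_product]
    refine Finset.card_le_card_of_injOn (fun p => (p.1 * p.2, p.2)) ?_ ?_
    · intro p hp
      simp only [Finset.coe_filter, Finset.mem_product, Set.mem_setOf_eq] at hp
      simp only [Finset.coe_product, Set.mem_prod, Finset.mem_coe]
      exact ⟨hp.2, hp.1.2⟩
    · rintro ⟨a, b⟩ _ ⟨c, d⟩ _ h
      simp only [Prod.mk.injEq] at h
      obtain ⟨h5, rfl⟩ := h
      have := mul_right_cancel h5
      rw [this]
  have hBne : B.Nonempty := by
    rw [← Finset.card_pos, hBc]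
    have : 1 ∈ ball S R := ⟨[], by simp, by simp, rfl⟩
    exact (Set.ncard_pos hB).2 ⟨1, this⟩
  have hlow : B.card * F.card < ∑ g ∈ B, 2 * (F.filter fun f => g * f ∈ F).card := by
    rw [← smul_eq_mul, ← Finset.sum_const]
    exact Finset.sum_lt_sum_of_nonempty hBne hst
  rw [← Finset.mul_sum] at hlow
  rw [← hBc] at h2
  have h7 : 2 * F.card * F.card ≤ B.card * F.card := Nat.mul_le_mul_right _ h2
  nlinarith

theorem growth_zero (S : Set G) : growth S 0 = 1 := by
  have : ball S 0 = {1} := by
    ext g
    constructor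
    · rintro ⟨l, h1, h2, rfl⟩
      have : l = [] := List.eq_nil_of_length_eq_zero (by omega)
      rw [this]
      simp
    · intro h
      rw [Set.mem_singleton_iff.1 h]
      exact ⟨[], by simp, by simp, rfl⟩
  rw [growth, this, Set.ncard_singleton]

theorem ball_sub_closure (S : Set G) (n : ℕ) : ball S n ⊆ Subgroup.closure S := by
  rintro g ⟨l, -, h2, rfl⟩
  refine Subgroup.list_prod_mem _ fun x hx => ?_
  rcases h2 x hx with h | h
  · exact Subgroup.subset_closure h
  · have := (Subgroup.closure S).inv_mem (Subgroup.subset_closure h)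
    rwa [inv_inv] at this

theorem exp_of_nonAmen {S : Set G} (hS : S.Finite) {ε : ℝ} (hε : 0 < ε) (h : NonAmen S ε) (n : ℕ) :
    (1 + ε) ^ n ≤ growth S n := by
  induction n with
  | zero => rw [growth_zero]; simp
  | succ n ih =>
    have h1 := h (ball S (n + 1)) (ball_finite hS _) (ball_sub_closure S _)
    have h2 : bdry S (ball S (n + 1)) ⊆ ball S (n + 1) \ ball S n := by
      rintro g ⟨h3, s, hs, h4⟩
      refine ⟨h3, fun h5 => h4 ?_⟩
      obtain ⟨l, a1, a2, rfl⟩ := h5
      refine ⟨s :: l, by rw [List.length_cons]; omega, ?_, by simp⟩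
      intro x hx
      rcases List.mem_cons.1 hx with rfl | hx
      · exact hs
      · exact a2 x hx
    have h3 : (bdry S (ball S (n + 1))).ncard ≤ growth S (n + 1) - growth S n := by
      have h4 := Set.ncard_le_ncard h2 ((ball_finite hS _).subset Set.diff_subset)
      rw [Set.ncard_diff (ball_mono (Nat.le_succ n)) (ball_finite hS n)] at h4
      exact h4
    have h4 : growth S n ≤ growth S (n + 1) := growth_mono hS (Nat.le_succ n)
    have h5 : ((bdry S (ball S (n + 1))).ncard : ℝ) ≤ growth S (n + 1) - growth S n := by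
      have : ((bdry S (ball S (n + 1))).ncard : ℝ) ≤ ((growth S (n + 1) - growth S n : ℕ) : ℝ) := by
        exact_mod_cast h3
      rwa [Nat.cast_sub h4] at this
    have h6 : ε * growth S (n + 1) ≤ growth S (n + 1) - growth S n := by
      have h7 : ((ball S (n + 1)).ncard : ℝ) = growth S (n + 1) := rfl
      rw [h7] at h1
      linarith
    have h7 : (0 : ℝ) ≤ growth S n := by positivity
    have h8 : (0 : ℝ) ≤ growth S (n + 1) := by positivity
    have h9 : (growth S n : ℝ) ≤ (1 - ε) * growth S (n + 1) := by linarith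
    rw [pow_succ]
    calc (1 + ε) ^ n * (1 + ε) ≤ growth S n * (1 + ε) := by
          apply mul_le_mul_of_nonneg_right ih (by linarith)
      _ ≤ (1 - ε) * growth S (n + 1) * (1 + ε) := by
          apply mul_le_mul_of_nonneg_right h9 (by linarith)
      _ = (1 - ε ^ 2) * growth S (n + 1) := by ring
      _ ≤ growth S (n + 1) := by nlinarith [sq_nonneg ε]

end Pool.Agent.Grm
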