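import Pool.Agent.Grm.Milnor
import Pool.Agent.Grm.RcwaCT
import Pool.Agent.Grm.GermA

namespace Pool.Agent.Grm

open Pool.Agent.CTm Filter Nat

private theorem fixtriv_dvd {a b : ℕ} (h : a ∣ b) : ((a : ℕ) : ℤ) ∣ ((b : ℕ) : ℤ) :=
  Int.natCast_dvd_natCast.2 h

private theorem fixtriv_deep {x : ℕ → ℤ} (hx : Pro x) {h : Equiv.Perm ℤ} {j : ℕ}
    (hj : ∀ n : ℤ, ((j ! : ℕ) : ℤ) ∣ n - x j → h n = n) {j' : ℕ} (hjj : j ≤ j') :
    ∀ n : ℤ, ((j' ! : ℕ) : ℤ) ∣ n - x j' → h n = n := by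
  intro n hn
  apply hj
  have h1 := (fixtriv_dvd (Nat.factorial_dvd_factorial hjj)).trans hn
  have h2 := Pro.coh hx hjj
  have h3 : n - x j = (n - x j') + (x j' - x j) := by ring
  rw [h3]
  exact dvd_add h1 h2

private theorem fixtriv_mul {x : ℕ → ℤ} {a b : Equiv.Perm ℤ} (ha : FixPt x a) (hb : FixPt x b) :
    FixPt x (a * b) := by
  intro j
  obtain ⟨i, hi⟩ := ha j
  obtain ⟨i', hi'⟩ := hb i
  exact ⟨i', fun n hn => hi (b n) (hi' n hn)⟩

private theorem fixtriv_one {x : ℕ → ℤ} : FixPt x 1 := fun j => ⟨j, fun _ hn => hn⟩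

private theorem fixtriv_inv {x : ℕ → ℤ} (hx : Pro x) {T : Equiv.Perm ℤ} (hT : FixPt x T)
    (hR : Rcwa T⁻¹) : FixPt x T⁻¹ := by
  obtain ⟨M, hM, hM'⟩ := hR
  intro j
  obtain ⟨σ, τ, _, hστ⟩ := hM' (x M)
  set v : ℕ := σ.den with hv
  have hvpos : 0 < v := σ.den_pos
  refine ⟨M + (v + j), ?_⟩
  set J : ℕ := M + (v + j) with hJ
  obtain ⟨I, hI⟩ := hT J
  have h1 : ((I ! : ℕ) : ℤ) ∣ x (max I j) - x I := Pro.coh hx (le_max_left I j)
  have h2 := hI _ h1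
  have h3 : ((j ! : ℕ) : ℤ) ∣ x (max I j) - x j := Pro.coh hx (le_max_right I j)
  have hMJ : (M : ℤ) ∣ ((J ! : ℕ) : ℤ) :=
    fixtriv_dvd ((Nat.dvd_factorial hM le_rfl).trans (Nat.factorial_dvd_factorial (by omega)))
  have hcoh : (M : ℤ) ∣ x J - x M :=
    (fixtriv_dvd (Nat.dvd_factorial hM le_rfl)).trans (Pro.coh hx (by omega : M ≤ J))
  have hclass : ∀ n : ℤ, ((J ! : ℕ) : ℤ) ∣ n - x J → (M : ℤ) ∣ n - x M := by
    intro n hn
    have h5 : n - x M = (n - x J) + (x J - x M) := by ring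
    rw [h5]
    exact dvd_add (hMJ.trans hn) hcoh
  have hfac : v * j ! ∣ J ! := by
    have h5 : v ! * j ! ∣ (v + j)! := Nat.factorial_mul_factorial_dvd_factorial_add v j
    have h6 : v ∣ v ! := Nat.dvd_factorial hvpos le_rfl
    exact (Nat.mul_dvd_mul_right h6 _).trans
      (h5.trans (Nat.factorial_dvd_factorial (by omega)))
  obtain ⟨c, hc⟩ := hfac
  intro n hn
  have e1 := hστ n (hclass n hn)
  have e2 := hστ (T (x (max I j))) (hclass _ h2)
  have e3 : T⁻¹ (T (x (max I j))) = x (max I j) := T.symm_apply_apply _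
  rw [e3] at e2
  have h6 : ((J ! : ℕ) : ℤ) ∣ n - T (x (max I j)) := by
    have h7 : n - T (x (max I j)) = (n - x J) - (T (x (max I j)) - x J) := by ring
    rw [h7]
    exact dvd_sub hn h2
  obtain ⟨k, hk⟩ := h6
  have h8 : (T⁻¹ n : ℤ) - x (max I j) = σ.num * ((j ! : ℕ) : ℤ) * c * k := by
    have h9 : ((T⁻¹ n : ℤ) : ℚ) - ((x (max I j) : ℤ) : ℚ) =
        σ * (((n - T (x (max I j)) : ℤ)) : ℚ) := by
      rw [e1, e2]
      push_cast
      ring
    rw [hk, hc] at h9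
    have h10 : σ * (v : ℚ) = σ.num := by
      rw [hv]
      exact Rat.mul_den_eq_num σ
    have h11 : ((((T⁻¹ n : ℤ) - x (max I j) : ℤ)) : ℚ) =
        ((σ.num * ((j ! : ℕ) : ℤ) * c * k : ℤ) : ℚ) := by
      push_cast
      push_cast at h9
      rw [h9]
      calc σ * ((v : ℚ) * (j ! : ℚ) * c * k) = (σ * v) * ((j ! : ℚ) * c * k) := by ring
        _ = _ := by
          rw [h10]
          ring
    exact_mod_cast h11
  have h12 : T⁻¹ n - x j = (T⁻¹ n - x (max I j)) + (x (max I j) - x j) := by ring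
  rw [h12, h8]
  refine dvd_add ?_ h3
  exact ⟨σ.num * c * k, by ring⟩

private theorem fixtriv_zpow {x : ℕ → ℤ} {T : Equiv.Perm ℤ} (hT : FixPt x T)
    (hT' : FixPt x T⁻¹) (i : ℤ) : FixPt x (T ^ i) := by
  have hpow : ∀ {a : Equiv.Perm ℤ}, FixPt x a → ∀ n : ℕ, FixPt x (a ^ n) := by
    intro a ha n
    induction n with
    | zero => exact fixtriv_one
    | succ n ih =>
      rw [pow_succ]
      exact fixtriv_mul ih ha
  rcases Int.eq_nat_or_neg i with ⟨n, rfl | rfl⟩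
  · rw [zpow_natCast]
    exact hpow hT n
  · rw [zpow_neg, zpow_natCast, ← inv_pow]
    exact hpow hT' n

private theorem fixtriv_conj {x : ℕ → ℤ} {a g : Equiv.Perm ℤ} (ha : FixPt x a⁻¹)
    (hg : FixNear x g) : FixNear x (a * g * a⁻¹) := by
  obtain ⟨j, hj⟩ := hg
  obtain ⟨i, hi⟩ := ha j
  refine ⟨i, fun n hn => ?_⟩
  show a (g (a⁻¹ n)) = n
  rw [hj _ (hi n hn)]
  exact a.apply_symm_apply n

/-- finitely many generators are the identity on a common class -/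
private theorem fixtriv_level {x : ℕ → ℤ} (hx : Pro x) (f : ℕ → Equiv.Perm ℤ)
    (hf : ∀ j, FixNear x (f j)) (k : ℕ) :
    ∃ J : ℕ, ∀ J' : ℕ, J ≤ J' → ∀ h ∈ Subgroup.closure {y | ∃ j < k, y = f j},
      ∀ n : ℤ, ((J' ! : ℕ) : ℤ) ∣ n - x J' → h n = n := by
  choose lev hlev using hf
  refine ⟨(Finset.range k).sup lev, fun J' hJ' h hh => ?_⟩
  induction hh using Subgroup.closure_induction with
  | mem y hy =>
    obtain ⟨j, hj, rfl⟩ := hy
    have h1 : lev j ≤ J' := (Finset.le_sup (Finset.mem_range.2 hj)).trans hJ'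
    exact fixtriv_deep hx (hlev j) h1
  | one => intro n _; rfl
  | mul a b _ _ ha hb =>
    intro n hn
    show a (b n) = n
    rw [hb n hn, ha n hn]
  | inv a _ ha =>
    intro n hn
    have h1 := ha n hn
    calc a⁻¹ n = a⁻¹ (a n) := by rw [h1]
      _ = n := a.symm_apply_apply n

/-- If the growth is not exponential then an element `g` which is the identity near `x` has a fixed
point in every residue class linked to `x`. `milnor` for `t = T` and `t = T⁻¹`: all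
`g_i = T^i g T^(-i)`, `i ∈ ℤ`, lie in a group generated by finitely many of them; each `g_j` is `FixNear x`
(because `T` fixes `x`), so there is one `j` such that all `g_i` are the identity on the class of `x j` modulo
`j!`. There are `i` and `y` in this class with `T^i y ∈ r + m ℤ`; `g_(-i) y = y` gives
`g (T^i y) = T^i y`. -/
theorem fix_linked (S : Finset (Equiv.Perm ℤ)) (hS : ∀ s ∈ S, s ∈ CT) {x : ℕ → ℤ} (hx : Pro x)
    (hexp : ¬ ∃ c : ℝ, 1 < c ∧ ∀ᶠ n : ℕ in atTop,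
      c ^ n ≤ growth (S : Set (Equiv.Perm ℤ)) n)
    {g : Equiv.Perm ℤ} (hg : g ∈ Subgroup.closure (S : Set (Equiv.Perm ℤ)))
    (hgx : FixNear x g) (r : ℤ) (m : ℕ)
    (hlink : Linked (Subgroup.closure (S : Set (Equiv.Perm ℤ))) x r m) :
    ∃ z : ℤ, (m : ℤ) ∣ z - r ∧ g z = z := by
  have hCT : Subgroup.closure (S : Set (Equiv.Perm ℤ)) ≤ CT := by
    rw [Subgroup.closure_le]
    exact fun s hs => hS s (Finset.mem_coe.1 hs)
  obtain ⟨T, hTS, hTx, hTl⟩ := hlink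
  have hTi : FixPt x T⁻¹ := fixtriv_inv hx hTx (rcwa_of_CT (inv_mem (hCT hTS)))
  have hnear : ∀ i : ℤ, FixNear x (T ^ i * g * (T ^ i)⁻¹) := by
    intro i
    refine fixtriv_conj ?_ hgx
    rw [← zpow_neg]
    exact fixtriv_zpow hTx hTi _
  obtain ⟨k₁, hk₁⟩ := milnor S.finite_toSet hg hTS hexp
  obtain ⟨k₂, hk₂⟩ := milnor S.finite_toSet hg (inv_mem hTS) hexp
  obtain ⟨J₁, hJ₁⟩ := fixtriv_level hx (fun j => T ^ j * g * (T ^ j)⁻¹)
    (fun j => by
      have := hnear (j : ℤ)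
      rwa [zpow_natCast] at this) k₁
  obtain ⟨J₂, hJ₂⟩ := fixtriv_level hx (fun j => T⁻¹ ^ j * g * (T⁻¹ ^ j)⁻¹)
    (fun j => by
      have := hnear (-(j : ℤ))
      rwa [zpow_neg, zpow_natCast, ← inv_pow] at this) k₂
  obtain ⟨i, y, hy, hyr⟩ := hTl (max J₁ J₂)
  refine ⟨(T ^ i) y, hyr, ?_⟩
  rcases Int.eq_nat_or_neg i with ⟨n, rfl | rfl⟩
  · have h1 := hJ₂ _ (le_max_right J₁ J₂) _ (hk₂ n) y hy
    have h2 : T⁻¹ ^ n * g * (T⁻¹ ^ n)⁻¹ = (T ^ n)⁻¹ * g * T ^ n := by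
      rw [inv_pow, inv_inv]
    rw [h2] at h1
    rw [zpow_natCast]
    have h3 : (T ^ n)⁻¹ (g ((T ^ n) y)) = y := h1
    have h4 : (T ^ n) ((T ^ n)⁻¹ (g ((T ^ n) y))) = (T ^ n) y := by rw [h3]
    have h5 : (T ^ n) ((T ^ n)⁻¹ (g ((T ^ n) y))) = g ((T ^ n) y) :=
      (T ^ n).apply_symm_apply _
    rw [h5] at h4
    exact h4
  · have h1 := hJ₁ _ (le_max_left J₁ J₂) _ (hk₁ n) y hy
    rw [zpow_neg, zpow_natCast]
    have h3 : (T ^ n) (g ((T ^ n)⁻¹ y)) = y := h1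
    have h4 : (T ^ n)⁻¹ ((T ^ n) (g ((T ^ n)⁻¹ y))) = (T ^ n)⁻¹ y := by rw [h3]
    have h5 : (T ^ n)⁻¹ ((T ^ n) (g ((T ^ n)⁻¹ y))) = g ((T ^ n)⁻¹ y) :=
      (T ^ n).symm_apply_apply _
    rw [h5] at h4
    exact h4

/-- If the growth is not exponential and every residue class is linked to `x`, then no element
`≠ 1` is the identity near `x`: it has a fixed point in every residue class; it is affine on the classes
modulo some `M`, it has two fixed points in each of them (classes modulo `M` contain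
disjoint classes modulo `2 M`), so it is `1`. -/
theorem fix_trivial (S : Finset (Equiv.Perm ℤ)) (hS : ∀ s ∈ S, s ∈ CT) {x : ℕ → ℤ} (hx : Pro x)
    (hlink : ∀ (r : ℤ) (m : ℕ), 0 < m → ∃ T ∈ Subgroup.closure (S : Set (Equiv.Perm ℤ)),
      FixPt x T ∧ ∀ j : ℕ, ∃ (i : ℤ) (y : ℤ), ((j ! : ℕ) : ℤ) ∣ y - x j ∧
        (m : ℤ) ∣ (T ^ i) y - r)
    (hexp : ¬ ∃ c : ℝ, 1 < c ∧ ∀ᶠ n : ℕ in atTop,
      c ^ n ≤ growth (S : Set (Equiv.Perm ℤ)) n)
    {g : Equiv.Perm ℤ} (hg : g ∈ Subgroup.closure (S : Set (Equiv.Perm ℤ)))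
    (hgx : FixNear x g) : g = 1 := by
  have hCT : Subgroup.closure (S : Set (Equiv.Perm ℤ)) ≤ CT := by
    rw [Subgroup.closure_le]
    exact fun s hs => hS s (Finset.mem_coe.1 hs)
  have hfix : ∀ (r : ℤ) (m : ℕ), 0 < m → ∃ z : ℤ, (m : ℤ) ∣ z - r ∧ g z = z :=
    fun r m hm => fix_linked S hS hx hexp hg hgx r m (hlink r m hm)
  obtain ⟨M, hM, hM'⟩ := rcwa_of_CT (hCT hg)
  ext n
  show g n = n
  obtain ⟨σ, τ, _, hστ⟩ := hM' n
  obtain ⟨z₁, hz₁, hz₁'⟩ := hfix n (2 * M) (by omega)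
  obtain ⟨z₂, hz₂, hz₂'⟩ := hfix (n + M) (2 * M) (by omega)
  have hd1 : (M : ℤ) ∣ z₁ - n := by
    refine dvd_trans ?_ hz₁
    push_cast
    exact dvd_mul_left _ _
  have hd2 : (M : ℤ) ∣ z₂ - n := by
    have h1 : (M : ℤ) ∣ z₂ - (n + M) := by
      refine dvd_trans ?_ hz₂
      push_cast
      exact dvd_mul_left _ _
    have h2 : z₂ - n = (z₂ - (n + M)) + M := by ring
    rw [h2]
    exact dvd_add h1 dvd_rfl
  have hne : z₁ ≠ z₂ := by
    rintro rfl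
    have h1 : ((2 * M : ℕ) : ℤ) ∣ (z₁ - n) - (z₁ - (n + M)) := dvd_sub hz₁ hz₂
    have h2 : (z₁ - n) - (z₁ - (n + M)) = (M : ℤ) := by ring
    rw [h2] at h1
    have h3 := Nat.le_of_dvd hM (Int.natCast_dvd_natCast.1 h1)
    omega
  have e1 := hστ z₁ hd1
  have e2 := hστ z₂ hd2
  rw [hz₁'] at e1
  rw [hz₂'] at e2
  have e3 := hστ n (by simp)
  have hne' : (z₁ : ℚ) - z₂ ≠ 0 := by
    rw [sub_ne_zero]
    exact_mod_cast hne
  have hσ : σ = 1 := by
    have h1 : (σ - 1) * ((z₁ : ℚ) - z₂) = 0 := by linarith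
    rcases mul_eq_zero.1 h1 with h2 | h2
    · linarith
    · exact absurd h2 hne'
  have hτ : τ = 0 := by
    rw [hσ] at e1
    linarith
  rw [hσ, hτ, one_mul, add_zero] at e3
  exact_mod_cast e3

end Pool.Agent.Grm
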