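import Pool.Agent.Grm.Abs
import Pool.Agent.Grm.Inst
import Pool.Agent.Grm.ThmB
import Pool.Agent.Grm.Colmem

/-!
# The main theorems
-/

namespace Pool.Agent.Grm

open Pool.Agent.CTm Filter Nat

theorem alt_fin (S : Finset (Equiv.Perm ℤ)) (hS : ∀ s ∈ S, s ∈ CT) {x : ℕ → ℤ} (hx : Pro x)
    (hK : {h | h ∈ Subgroup.closure (S : Set (Equiv.Perm ℤ)) ∧ FixNear x h}.Finite) :
    (∃ C d : ℕ, ∀ n : ℕ, 1 ≤ n → growth (S : Set (Equiv.Perm ℤ)) n ≤ C * n ^ d) ∨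
      ∃ ε : ℝ, 0 < ε ∧ NonAmen (S : Set (Equiv.Perm ℤ)) ε ∧
        ∀ n : ℕ, (1 + ε) ^ n ≤ growth (S : Set (Equiv.Perm ℤ)) n := by
  obtain ⟨M, A, hd⟩ := exists_data S hS
  obtain ⟨ι, hι, v, ξ, w, D, C, κ, hc⟩ := exists_coord hd hx hK
  rcases abs_alternative S.finite_toSet hc with h | ⟨ε, hε, h⟩
  · exact Or.inl h
  · exact Or.inr ⟨ε, hε, h, exp_of_nonAmen S.finite_toSet hε h⟩

/-- If only finitely many elements of `H` are the identity near `x` and have a fixed point in every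
residue class linked to `x`, then the growth is polynomially bounded or exponential. -/
theorem alt_near (S : Finset (Equiv.Perm ℤ)) (hS : ∀ s ∈ S, s ∈ CT) {x : ℕ → ℤ} (hx : Pro x)
    (hN : {h | h ∈ Subgroup.closure (S : Set (Equiv.Perm ℤ)) ∧ FixNear x h ∧
      ∀ (r : ℤ) (m : ℕ), 0 < m → Linked (Subgroup.closure (S : Set (Equiv.Perm ℤ))) x r m →
        ∃ z : ℤ, (m : ℤ) ∣ z - r ∧ h z = z}.Finite) :
    (∃ C d : ℕ, ∀ n : ℕ, 1 ≤ n → growth (S : Set (Equiv.Perm ℤ)) n ≤ C * n ^ d) ∨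
      ∃ c : ℝ, 1 < c ∧ ∀ᶠ n : ℕ in atTop, c ^ n ≤ growth (S : Set (Equiv.Perm ℤ)) n := by
  by_cases hexp : ∃ c : ℝ, 1 < c ∧ ∀ᶠ n : ℕ in atTop,
      c ^ n ≤ growth (S : Set (Equiv.Perm ℤ)) n
  · exact Or.inr hexp
  have hK : {h | h ∈ Subgroup.closure (S : Set (Equiv.Perm ℤ)) ∧ FixNear x h}.Finite := by
    refine hN.subset ?_
    rintro g ⟨h1, h2⟩
    exact ⟨h1, h2, fun r m _ hl => fix_linked S hS hx hexp h1 h2 r m hl⟩
  rcases alt_fin S hS hx hK with h | ⟨ε, hε, -, h⟩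
  · exact Or.inl h
  · exact Or.inr ⟨1 + ε, by linarith, Eventually.of_forall h⟩

theorem alt_link (S : Finset (Equiv.Perm ℤ)) (hS : ∀ s ∈ S, s ∈ CT) {x : ℕ → ℤ} (hx : Pro x)
    (hlink : ∀ (r : ℤ) (m : ℕ), 0 < m → Linked (Subgroup.closure (S : Set (Equiv.Perm ℤ))) x r m) :
    (∃ C d : ℕ, ∀ n : ℕ, 1 ≤ n → growth (S : Set (Equiv.Perm ℤ)) n ≤ C * n ^ d) ∨
      ∃ c : ℝ, 1 < c ∧ ∀ᶠ n : ℕ in atTop, c ^ n ≤ growth (S : Set (Equiv.Perm ℤ)) n := by
  by_cases hexp : ∃ c : ℝ, 1 < c ∧ ∀ᶠ n : ℕ in atTop,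
      c ^ n ≤ growth (S : Set (Equiv.Perm ℤ)) n
  · exact Or.inr hexp
  have hK : {h | h ∈ Subgroup.closure (S : Set (Equiv.Perm ℤ)) ∧ FixNear x h}.Finite := by
    refine (Set.finite_singleton (1 : Equiv.Perm ℤ)).subset ?_
    rintro g ⟨h1, h2⟩
    exact fix_trivial S hS hx hlink hexp h1 h2
  rcases alt_fin S hS hx hK with h | ⟨ε, hε, -, h⟩
  · exact Or.inl h
  · exact Or.inr ⟨1 + ε, by linarith, Eventually.of_forall h⟩

/-- after the orbit has come close to `0` the next `j` iterates are still close to `0` -/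
theorem collatz_pow {T : Equiv.Perm ℤ} (hT : IsCollatz T) (N : ℤ) (j : ℕ) :
    ∀ y : ℤ, 2 ^ j * N ∣ y → ∀ i : ℕ, i ≤ j → 2 ^ (j - i) * N ∣ (T ^ i) y := by
  intro y hy i
  induction i with
  | zero => intro _; simpa using hy
  | succ i ih =>
    intro hi
    have h1 := ih (by omega)
    obtain ⟨k, hk⟩ := h1
    have e : j - i = (j - (i + 1)) + 1 := by omega
    rw [_root_.pow_succ', Equiv.Perm.mul_apply, hk, e, _root_.pow_succ]
    have e2 : (2 : ℤ) ^ (j - (i + 1)) * 2 * N * k = 2 * (2 ^ (j - (i + 1)) * N * k) := by ring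
    rw [e2, (hT _).1]
    exact ⟨3 * k, by ring⟩

theorem alt_collatz (S : Finset (Equiv.Perm ℤ)) (hS : ∀ s ∈ S, s ∈ CT) {T : Equiv.Perm ℤ}
    (hT : IsCollatz T) {k : ℕ} (hk : 0 < k)
    (hTS : T ^ k ∈ Subgroup.closure (S : Set (Equiv.Perm ℤ))) :
    (∃ C d : ℕ, ∀ n : ℕ, 1 ≤ n → growth (S : Set (Equiv.Perm ℤ)) n ≤ C * n ^ d) ∨
      ∃ c : ℝ, 1 < c ∧ ∀ᶠ n : ℕ in atTop, c ^ n ≤ growth (S : Set (Equiv.Perm ℤ)) n := by
  refine alt_link S hS (x := fun _ => 0) (fun j => by simp) fun r m hm => ⟨T ^ k, hTS, ?_, ?_⟩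
  · intro j
    refine ⟨(2 ^ k * j !), fun n hn => ?_⟩
    have h1 : 2 ^ k * ((j ! : ℕ) : ℤ) ∣ n := by
      have h2 : (2 ^ k * j !) ∣ (2 ^ k * j !)! := Nat.dvd_factorial (by positivity) le_rfl
      have h3 : ((2 ^ k * j ! : ℕ) : ℤ) ∣ (((2 ^ k * j !)! : ℕ) : ℤ) := by exact_mod_cast h2
      have h4 := dvd_trans h3 hn
      simpa using h4
    have h5 := collatz_pow hT _ k n h1 k le_rfl
    simpa using h5
  · intro j
    obtain ⟨y, i, h1, h2⟩ := collatz_reach hT r m (2 ^ k * j !) hm (by positivity)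
    have h2' : 2 ^ k * ((j ! : ℕ) : ℤ) ∣ (T ^ i) y := by exact_mod_cast h2
    -- a multiple of `k` between `i` and `i + k`
    obtain ⟨q, u, hu, hq⟩ : ∃ q u : ℕ, u ≤ k ∧ i + u = k * q := by
      refine ⟨i / k + 1, k * (i / k + 1) - i, ?_, ?_⟩
      · have := Nat.div_add_mod i k
        rw [mul_add, mul_one]
        omega
      · have := Nat.div_add_mod i k
        have := Nat.mod_lt i hk
        rw [mul_add, mul_one]
        omega
    have h3 := collatz_pow hT _ k _ h2' u hu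
    refine ⟨-(q : ℤ), (T ^ u) ((T ^ i) y), ?_, ?_⟩
    · simpa using dvd_trans (Dvd.intro_left _ rfl) h3
    · have e : ((T ^ k) ^ (-(q : ℤ))) ((T ^ u) ((T ^ i) y)) = y := by
        rw [← Equiv.Perm.mul_apply, ← Equiv.Perm.mul_apply, zpow_neg, zpow_natCast, ← pow_mul,
          mul_assoc, ← pow_add, show u + i = k * q by omega, inv_mul_cancel]
        rfl
      rw [e]
      exact h1

section
variable {G G' : Type*} [Group G] [Group G']

theorem growth_map (ψ : G ≃* G') (S : Set G) (n : ℕ) : growth (ψ '' S) n = growth S n := by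
  have h : ball (ψ '' S) n = ψ '' ball S n := by
    ext g
    constructor
    · rintro ⟨l, h1, h2, rfl⟩
      refine ⟨(l.map ψ.symm).prod, ⟨l.map ψ.symm, by simpa using h1, ?_, rfl⟩, ?_⟩
      · intro x hx
        obtain ⟨y, hy, rfl⟩ := List.mem_map.1 hx
        rcases h2 y hy with ⟨z, hz, rfl⟩ | ⟨z, hz, hzy⟩
        · left; simpa using hz
        · right
          have : (ψ.symm y)⁻¹ = z := by rw [← map_inv, ← hzy]; simp
          rw [this]
          exact hz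
      · rw [map_list_prod, List.map_map]
        simp
    · rintro ⟨g, ⟨l, h1, h2, rfl⟩, rfl⟩
      refine ⟨l.map ψ, by simpa using h1, ?_, by rw [map_list_prod]⟩
      intro x hx
      obtain ⟨y, hy, rfl⟩ := List.mem_map.1 hx
      rcases h2 y hy with h3 | h3
      · exact Or.inl ⟨y, h3, rfl⟩
      · exact Or.inr ⟨y⁻¹, h3, by simp⟩
  rw [growth, growth, h, Set.ncard_image_of_injective _ ψ.injective]

end

/-- a conjugate of a power of the Collatz permutation -/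
theorem alt_collatz_conj (S : Finset (Equiv.Perm ℤ)) (hS : ∀ s ∈ S, s ∈ CT) {T : Equiv.Perm ℤ}
    (hT : IsCollatz T) {k : ℕ} (hk : 0 < k) {g : Equiv.Perm ℤ} (hg : g ∈ CT)
    (hTS : g * T ^ k * g⁻¹ ∈ Subgroup.closure (S : Set (Equiv.Perm ℤ))) :
    (∃ C d : ℕ, ∀ n : ℕ, 1 ≤ n → growth (S : Set (Equiv.Perm ℤ)) n ≤ C * n ^ d) ∨
      ∃ c : ℝ, 1 < c ∧ ∀ᶠ n : ℕ in atTop, c ^ n ≤ growth (S : Set (Equiv.Perm ℤ)) n := by
  classical
  set ψ : Equiv.Perm ℤ ≃* Equiv.Perm ℤ := MulAut.conj g⁻¹ with hψ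
  have hψa : ∀ s, ψ s = g⁻¹ * s * g := fun s => by rw [hψ, MulAut.conj_apply, inv_inv]
  have hcoe : ((S.image ψ : Finset (Equiv.Perm ℤ)) : Set (Equiv.Perm ℤ)) = ψ '' S := by
    rw [Finset.coe_image]
  have h1 : ∀ s ∈ S.image ψ, s ∈ CT := by
    intro s hs
    obtain ⟨u, hu, rfl⟩ := Finset.mem_image.1 hs
    rw [hψa]
    exact CT.mul_mem (CT.mul_mem (CT.inv_mem hg) (hS u hu)) hg
  have h2 : T ^ k ∈ Subgroup.closure ((S.image ψ : Finset (Equiv.Perm ℤ)) : Set (Equiv.Perm ℤ)) := by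
    have h3 : ψ (g * T ^ k * g⁻¹) ∈ (Subgroup.closure (S : Set (Equiv.Perm ℤ))).map ψ.toMonoidHom :=
      Subgroup.mem_map_of_mem _ hTS
    rw [MonoidHom.map_closure] at h3
    have h4 : ψ (g * T ^ k * g⁻¹) = T ^ k := by rw [hψa]; group
    rw [h4] at h3
    rw [hcoe]
    exact h3
  have h3 := alt_collatz (S.image ψ) h1 hT hk h2
  rw [hcoe] at h3
  simpa only [growth_map] using h3

end Pool.Agent.Grm
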