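import Pool.Agent.Grm.Defs

namespace Pool.Agent.Grm

open Pool.Agent.CTm Filter

variable {G : Type*} [Group G]

private theorem milnor_conj (s : G) {A : Set G} {H : Subgroup G} (h : ∀ y ∈ A, s * y * s⁻¹ ∈ H) {x : G}
    (hx : x ∈ Subgroup.closure A) : s * x * s⁻¹ ∈ H := by
  induction hx using Subgroup.closure_induction with
  | mem x hx => exact h x hx
  | one =>
    rw [mul_one, mul_inv_cancel]
    exact one_mem H
  | mul x y _ _ hx hy =>
    have h1 : s * (x * y) * s⁻¹ = (s * x * s⁻¹) * (s * y * s⁻¹) := by group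
    rw [h1]
    exact mul_mem hx hy
  | inv x _ hx =>
    have h1 : s * x⁻¹ * s⁻¹ = (s * x * s⁻¹)⁻¹ := by group
    rw [h1]
    exact inv_mem hx

/-- the group generated by the conjugates -/
private theorem milnor_wd (g t : G) (u : List Bool) :
    wd (g * t) t u * (t ^ u.length)⁻¹ ∈
      Subgroup.closure {y | ∃ j < u.length, y = t ^ j * g * (t ^ j)⁻¹} := by
  induction u with
  | nil =>
    rw [wd_nil]
    simp
  | cons b v ih =>
    have h1 : wd (g * t) t (b :: v) * (t ^ (b :: v).length)⁻¹ =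
        (if b then g else 1) * (t * (wd (g * t) t v * (t ^ v.length)⁻¹) * t⁻¹) := by
      rw [wd_cons, List.length_cons, pow_succ']
      cases b
      · simp only [Bool.false_eq_true, if_false]
        group
      · simp only [if_true]
        group
    rw [h1]
    refine mul_mem ?_ ?_
    · cases b
      · exact one_mem _
      · refine Subgroup.subset_closure ⟨0, by simp, ?_⟩
        simp
    · refine milnor_conj t ?_ ih
      rintro _ ⟨j, hj, rfl⟩
      refine Subgroup.subset_closure ⟨j + 1, by rw [List.length_cons]; omega, ?_⟩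
      rw [pow_succ']
      group

private theorem milnor_eq {g t : G} : ∀ (l l' : List Bool), l.length = l'.length → l ≠ l' →
    wd (g * t) t l = wd (g * t) t l' → ∃ u u' : List Bool, u.length = u'.length ∧
      g * t * wd (g * t) t u = t * wd (g * t) t u' := by
  intro l
  induction l with
  | nil =>
    intro l' h1 h2
    exact absurd (List.length_eq_zero_iff.1 h1.symm).symm h2
  | cons b v ih =>
    intro l' h1 h2 h3
    cases l' with
    | nil => simp at h1
    | cons b' v' =>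
      rw [List.length_cons, List.length_cons] at h1
      rw [wd_cons, wd_cons] at h3
      have h4 : v.length = v'.length := by omega
      cases b <;> cases b'
      · have h5 : v ≠ v' := fun h => h2 (by rw [h])
        exact ih v' h4 h5 (mul_left_cancel h3)
      · exact ⟨v', v, h4.symm, h3.symm⟩
      · exact ⟨v, v', h4, h3⟩
      · have h5 : v ≠ v' := fun h => h2 (by rw [h])
        exact ih v' h4 h5 (mul_left_cancel h3)

private theorem milnor_exp {S : Set G} (hS : S.Finite) {l0 : ℕ} (hl0 : 0 < l0)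
    (h : ∀ k, 2 ^ k ≤ growth S (l0 * k)) :
    ∃ c : ℝ, 1 < c ∧ ∀ᶠ n : ℕ in atTop, c ^ n ≤ growth S n := by
  have hl0' : (0 : ℝ) < 2 * l0 := by positivity
  have hc1 : (1 : ℝ) < (2 : ℝ) ^ ((1 : ℝ) / (2 * l0)) :=
    Real.one_lt_rpow (by norm_num) (by positivity)
  have hc2 : ((2 : ℝ) ^ ((1 : ℝ) / (2 * l0))) ^ (2 * l0) = 2 := by
    rw [← Real.rpow_natCast, ← Real.rpow_mul (by norm_num)]
    have : (1 : ℝ) / (2 * l0) * ((2 * l0 : ℕ) : ℝ) = 1 := by
      push_cast
      field_simp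
    rw [this, Real.rpow_one]
  refine ⟨_, hc1, ?_⟩
  filter_upwards [eventually_ge_atTop l0] with n hn
  have h1 : 1 ≤ n / l0 := (Nat.one_le_div_iff hl0).2 hn
  have h2 : n ≤ 2 * l0 * (n / l0) := by
    have h3 := Nat.div_add_mod n l0
    have h4 := Nat.mod_lt n hl0
    nlinarith
  have h3 : l0 * (n / l0) ≤ n := Nat.mul_div_le n l0
  calc ((2 : ℝ) ^ ((1 : ℝ) / (2 * l0))) ^ n ≤
      ((2 : ℝ) ^ ((1 : ℝ) / (2 * l0))) ^ (2 * l0 * (n / l0)) :=
        pow_le_pow_right₀ hc1.le h2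
    _ = 2 ^ (n / l0) := by rw [pow_mul, hc2]
    _ ≤ growth S (l0 * (n / l0)) := by
        have := h (n / l0)
        exact_mod_cast this
    _ ≤ growth S n := by
        have := growth_mono hS h3
        exact_mod_cast this

private theorem milnor_one {S : Set G} (hS : S.Finite) {g t : G} (hg : g ∈ Subgroup.closure S)
    (ht : t ∈ Subgroup.closure S)
    (hexp : ¬ ∃ c : ℝ, 1 < c ∧ ∀ᶠ n : ℕ in atTop, c ^ n ≤ growth S n) :
    ∃ k : ℕ, g ∈ Subgroup.closure {y | ∃ j, 1 ≤ j ∧ j ≤ k ∧ y = t ^ j * g * (t ^ j)⁻¹} := by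
  obtain ⟨a, ha⟩ := mem_ball_of_closure (mul_mem hg ht)
  obtain ⟨b, hb⟩ := mem_ball_of_closure ht
  obtain ⟨l0, hl0, hs', ht'⟩ : ∃ l0, 0 < l0 ∧ g * t ∈ ball S l0 ∧ t ∈ ball S l0 :=
    ⟨a + b + 1, by omega, ball_mono (by omega) ha, ball_mono (by omega) hb⟩
  have h1 : ∃ k : ℕ, ∃ v w : Fin k → Bool, v ≠ w ∧
      wd (g * t) t (List.ofFn v) = wd (g * t) t (List.ofFn w) := by
    by_contra h2
    push Not at h2
    refine hexp (milnor_exp hS hl0 fun k => ?_)
    let f : (Fin k → Bool) → G := fun v => wd (g * t) t (List.ofFn v)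
    have hf : Function.Injective f := by
      intro v w hvw
      by_contra hne
      exact h2 k v w hne hvw
    have h1 : Set.range f ⊆ ball S (l0 * k) := by
      rintro _ ⟨v, rfl⟩
      have := wd_ball hs' ht' (List.ofFn v)
      rwa [List.length_ofFn] at this
    have h2 := Set.ncard_le_ncard h1 (ball_finite hS _)
    rw [← Set.image_univ, Set.ncard_image_of_injective _ hf, Set.ncard_univ] at h2
    simpa [growth] using h2
  obtain ⟨k, v, w, hne, hvw⟩ := h1
  obtain ⟨u, u', hu, huu⟩ := milnor_eq (List.ofFn v) (List.ofFn w)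
    (by rw [List.length_ofFn, List.length_ofFn]) (fun h => hne (List.ofFn_injective h)) hvw
  refine ⟨u.length, ?_⟩
  have h2 : g = t * ((wd (g * t) t u' * (t ^ u'.length)⁻¹) * (wd (g * t) t u * (t ^ u.length)⁻¹)⁻¹) * t⁻¹ := by
    have h3 : g * t * wd (g * t) t u * (wd (g * t) t u)⁻¹ * t⁻¹ = g := by group
    rw [huu] at h3
    conv_lhs => rw [← h3]
    rw [hu]
    group
  have h4 : (wd (g * t) t u' * (t ^ u'.length)⁻¹) * (wd (g * t) t u * (t ^ u.length)⁻¹)⁻¹ ∈
      Subgroup.closure {y | ∃ j < u.length, y = t ^ j * g * (t ^ j)⁻¹} := by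
    refine mul_mem ?_ (inv_mem (milnor_wd g t u))
    have h5 := milnor_wd g t u'
    rwa [← hu] at h5 ⊢
  have h5 : t * ((wd (g * t) t u' * (t ^ u'.length)⁻¹) * (wd (g * t) t u * (t ^ u.length)⁻¹)⁻¹) * t⁻¹ ∈
      Subgroup.closure {y | ∃ j, 1 ≤ j ∧ j ≤ u.length ∧ y = t ^ j * g * (t ^ j)⁻¹} := by
    refine milnor_conj t ?_ h4
    rintro _ ⟨j, hj, rfl⟩
    refine Subgroup.subset_closure ⟨j + 1, by omega, by omega, ?_⟩
    rw [pow_succ']
    group
  rw [← h2] at h5
  exact h5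

/-- Milnor. Let `g_i = t^i g t^(-i)`. The products `g_0^{e_0} ⋯ g_{n-1}^{e_{n-1}}`, `e ∈ {0,1}^n`, are
`(g^{e_0} t) ⋯ (g^{e_{n-1}} t) t^{-n}`, they lie in a ball of radius `l n`. If they were all different
for every `n` the growth would be exponential. So two different `e, e'` give the same product; if `k`
is the last index with `e_k ≠ e'_k` then `g_k ∈ ⟨g_0, …, g_{k-1}⟩` and by conjugation all `g_i`, `i ≥ k`,
are in this group. -/
theorem milnor {S : Set G} (hS : S.Finite) {g t : G} (hg : g ∈ Subgroup.closure S)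
    (ht : t ∈ Subgroup.closure S)
    (hexp : ¬ ∃ c : ℝ, 1 < c ∧ ∀ᶠ n : ℕ in atTop, c ^ n ≤ growth S n) :
    ∃ k : ℕ, ∀ i : ℕ, t ^ i * g * (t ^ i)⁻¹ ∈
      Subgroup.closure {y | ∃ j < k, y = t ^ j * g * (t ^ j)⁻¹} := by
  obtain ⟨k, hk⟩ := milnor_one hS hg (inv_mem ht) hexp
  refine ⟨k, ?_⟩
  have hgk : t ^ k * g * (t ^ k)⁻¹ ∈ Subgroup.closure {y | ∃ j < k, y = t ^ j * g * (t ^ j)⁻¹} := by
    have h1 : ∀ x ∈ Subgroup.closure {y | ∃ j, 1 ≤ j ∧ j ≤ k ∧ y = t⁻¹ ^ j * g * (t⁻¹ ^ j)⁻¹},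
        t ^ k * x * (t ^ k)⁻¹ ∈ Subgroup.closure {y | ∃ j < k, y = t ^ j * g * (t ^ j)⁻¹} := by
      intro x hx
      refine milnor_conj (t ^ k) ?_ hx
      rintro _ ⟨j, h1, h2, rfl⟩
      refine Subgroup.subset_closure ⟨k - j, by omega, ?_⟩
      have h3 : t ^ k = t ^ (k - j) * t ^ j := by rw [← pow_add, Nat.sub_add_cancel h2]
      rw [h3]
      group
    exact h1 g hk
  intro i
  induction i using Nat.strong_induction_on with
  | _ i ih =>
    by_cases hi : i < k
    · exact Subgroup.subset_closure ⟨i, hi, rfl⟩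
    · have h1 : t ^ i * g * (t ^ i)⁻¹ = t ^ (i - k) * (t ^ k * g * (t ^ k)⁻¹) * (t ^ (i - k))⁻¹ := by
        have h3 : t ^ i = t ^ (i - k) * t ^ k := by rw [← pow_add, Nat.sub_add_cancel (by omega)]
        rw [h3]
        group
      rw [h1]
      refine milnor_conj (t ^ (i - k)) ?_ hgk
      rintro _ ⟨j, hj, rfl⟩
      have h2 : t ^ (i - k) * (t ^ j * g * (t ^ j)⁻¹) * (t ^ (i - k))⁻¹ =
          t ^ (i - k + j) * g * (t ^ (i - k + j))⁻¹ := by
        rw [pow_add]
        group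
      rw [h2]
      exact ih _ (by omega)

end Pool.Agent.Grm
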