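import Pool.Agent.Grm.Defs

namespace Pool.Agent.Grm

variable {G : Type*}

/-- `c ↦ (a - c) % L` is injective on `[0, L)`. -/
private theorem slab_count (a : ℤ) (L D : ℕ) :
    ((Finset.range L).filter (fun c : ℕ => (a - c) % (L : ℤ) < D)).card ≤ D := by
  calc ((Finset.range L).filter (fun c : ℕ => (a - c) % (L : ℤ) < D)).card
      ≤ (Finset.range D).card := by
        apply Finset.card_le_card_of_injOn (fun c : ℕ => ((a - c) % (L : ℤ)).toNat)
        · intro c hc
          have hc' := Finset.mem_filter.1 (Finset.mem_coe.1 hc)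
          have hL : (0 : ℤ) < L := by
            have := Finset.mem_range.1 hc'.1
            omega
          have h0 := Int.emod_nonneg (a - c) hL.ne'
          apply Finset.mem_coe.2
          rw [Finset.mem_range]
          show ((a - c) % (L : ℤ)).toNat < D
          omega
        · intro c hc c' hc' h
          have hc1 := Finset.mem_range.1 (Finset.mem_filter.1 (Finset.mem_coe.1 hc)).1
          have hc2 := Finset.mem_range.1 (Finset.mem_filter.1 (Finset.mem_coe.1 hc')).1
          have hL : (0 : ℤ) < L := by omega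
          have h0 := Int.emod_nonneg (a - c) hL.ne'
          have h0' := Int.emod_nonneg (a - c') hL.ne'
          have h1 : ((a - c) % (L : ℤ)).toNat = ((a - c') % (L : ℤ)).toNat := h
          have h2 : (a - c) % (L : ℤ) = (a - c') % (L : ℤ) := by omega
          have h3 : (L : ℤ) ∣ (a - c') - (a - c) := Int.ModEq.dvd h2
          have h4 : (L : ℤ) ∣ (c : ℤ) - c' := by
            have h5 : (a - c') - (a - c) = (c : ℤ) - c' := by ring
            rwa [h5] at h3
          have h6 : (c : ℤ) - c' = 0 := by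
            apply Int.eq_zero_of_abs_lt_dvd h4
            rw [abs_lt]
            constructor <;> omega
          omega
    _ = D := Finset.card_range D

/-- average over `c ∈ {0, …, L - 1}`: every `h` is counted for at most `D` values of `c` -/
theorem slab (v : G → ℤ) {F : Set G} (hF : F.Finite) (L D : ℕ) (hL : 0 < L) :
    ∃ c : ℤ, {h | h ∈ F ∧ (v h - c) % (L : ℤ) < D}.ncard * L ≤ D * F.ncard := by
  classical
  have hset : ∀ c : ℤ, {h | h ∈ F ∧ (v h - c) % (L : ℤ) < D} =
      ((hF.toFinset.filter (fun h => (v h - c) % (L : ℤ) < D) : Finset G) : Set G) := by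
    intro c
    ext h
    simp
  have hcard : F.ncard = hF.toFinset.card := Set.ncard_eq_toFinset_card F hF
  have h1 : ∑ c ∈ Finset.range L, (hF.toFinset.filter
      (fun h => (v h - (c : ℤ)) % (L : ℤ) < D)).card ≤ D * hF.toFinset.card := by
    have h2 : ∑ c ∈ Finset.range L, (hF.toFinset.filter
        (fun h => (v h - (c : ℤ)) % (L : ℤ) < D)).card =
        ∑ h ∈ hF.toFinset, ((Finset.range L).filter
          (fun c : ℕ => (v h - c) % (L : ℤ) < D)).card := by
      simp only [Finset.card_filter]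
      exact Finset.sum_comm
    rw [h2]
    calc ∑ h ∈ hF.toFinset, ((Finset.range L).filter
          (fun c : ℕ => (v h - c) % (L : ℤ) < D)).card
        ≤ ∑ h ∈ hF.toFinset, D := Finset.sum_le_sum fun h _ => slab_count (v h) L D
      _ = D * hF.toFinset.card := by rw [Finset.sum_const, smul_eq_mul, Nat.mul_comm]
  have h3 : ∃ c ∈ Finset.range L, (hF.toFinset.filter
      (fun h => (v h - (c : ℤ)) % (L : ℤ) < D)).card * L ≤ D * hF.toFinset.card := by
    apply Finset.exists_le_of_sum_le (Finset.nonempty_range_iff.2 hL.ne')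
    rw [← Finset.sum_mul, Finset.sum_const, smul_eq_mul, Finset.card_range]
    calc _ ≤ (D * hF.toFinset.card) * L := Nat.mul_le_mul_right L h1
      _ = _ := by ring
  obtain ⟨c, _, hc⟩ := h3
  refine ⟨(c : ℤ), ?_⟩
  rw [hset, Set.ncard_coe_finset, hcard]
  exact hc

/-- edges which avoid the slabs do not change the block: if `|a - b| ≤ D` and neither `a` nor `b`
is congruent to one of `c, …, c + D - 1` modulo `L` then `⌊(a - c) / L⌋ = ⌊(b - c) / L⌋` -/
theorem block_eq {L D : ℕ} (hL : 0 < L) {a b c : ℤ} (hab : |a - b| ≤ D)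
    (ha : ¬ (a - c) % (L : ℤ) < D) (hb : ¬ (b - c) % (L : ℤ) < D) :
    (a - c) / (L : ℤ) = (b - c) / (L : ℤ) := by
  have hL' : (0 : ℤ) < L := by omega
  have h1 := Int.mul_ediv_add_emod (a - c) L
  have h2 := Int.mul_ediv_add_emod (b - c) L
  have h3 := Int.emod_lt_of_pos (a - c) hL'
  have h4 := Int.emod_lt_of_pos (b - c) hL'
  rw [abs_le] at hab
  push Not at ha hb
  rcases lt_trichotomy ((a - c) / (L : ℤ)) ((b - c) / (L : ℤ)) with h | h | h
  · exfalso
    have h5 : (L : ℤ) * ((a - c) / L) + L ≤ L * ((b - c) / L) := by nlinarith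
    linarith [hab.1]
  · exact h
  · exfalso
    have h5 : (L : ℤ) * ((b - c) / L) + L ≤ L * ((a - c) / L) := by nlinarith
    linarith [hab.2]

/-- median -/
theorem median (ξ : G → ℝ) {B : Set G} (hB : B.Finite) :
    ∃ c : ℝ, 2 * {h | h ∈ B ∧ ξ h < c}.ncard ≤ B.ncard ∧
      2 * {h | h ∈ B ∧ c < ξ h}.ncard ≤ B.ncard := by
  classical
  rcases B.eq_empty_or_nonempty with rfl | hne
  · exact ⟨0, by simp⟩
  set T : Set G := {h | h ∈ B ∧ B.ncard ≤ 2 * {g | g ∈ B ∧ ξ g ≤ ξ h}.ncard} with hT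
  have hTfin : T.Finite := hB.subset fun h hh => hh.1
  have hTne : T.Nonempty := by
    obtain ⟨h, hh, hmax⟩ := Set.exists_max_image B ξ hB hne
    refine ⟨h, hh, ?_⟩
    have h1 : {g | g ∈ B ∧ ξ g ≤ ξ h} = B := by
      ext g
      exact ⟨fun hg => hg.1, fun hg => ⟨hg, hmax g hg⟩⟩
    rw [h1]
    omega
  obtain ⟨h0, hh0, hmin⟩ := Set.exists_min_image T ξ hTfin hTne
  refine ⟨ξ h0, ?_, ?_⟩
  · rcases Set.eq_empty_or_nonempty {h | h ∈ B ∧ ξ h < ξ h0} with he | hne'
    · rw [he]
      simp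
    · obtain ⟨h1, hh1, hmax⟩ := Set.exists_max_image _ ξ (hB.subset fun h hh => hh.1) hne'
      have h2 : {h | h ∈ B ∧ ξ h < ξ h0} = {g | g ∈ B ∧ ξ g ≤ ξ h1} := by
        ext g
        exact ⟨fun hg => ⟨hg.1, hmax g hg⟩, fun hg => ⟨hg.1, lt_of_le_of_lt hg.2 hh1.2⟩⟩
      rw [h2]
      by_contra h3
      have h4 : h1 ∈ T := ⟨hh1.1, by omega⟩
      exact absurd (hmin h1 h4) (not_le.2 hh1.2)
  · have h1 : {h | h ∈ B ∧ ξ h0 < ξ h} = B \ {g | g ∈ B ∧ ξ g ≤ ξ h0} := by
      ext g
      constructor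
      · rintro ⟨hg, hg'⟩
        exact ⟨hg, fun h2 => absurd h2.2 (not_le.2 hg')⟩
      · rintro ⟨hg, hg'⟩
        refine ⟨hg, ?_⟩
        by_contra h2
        exact hg' ⟨hg, not_lt.1 h2⟩
    have h2 : {g | g ∈ B ∧ ξ g ≤ ξ h0} ⊆ B := fun g hg => hg.1
    rw [h1, Set.ncard_sdiff h2 (hB.subset h2)]
    have h3 := hh0.2
    omega

end Pool.Agent.Grm
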