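import Pool.Agent.Grm.Defs

namespace Pool.Agent.Grm

open Pool.Agent.CTm

variable {G : Type*} [Group G]

/-- the number of generators and inverses of generators -/
theorem gens_finite {S : Set G} (hS : S.Finite) :
    {s : G | s ∈ S ∨ s⁻¹ ∈ S}.Finite ∧ {s : G | s ∈ S ∨ s⁻¹ ∈ S}.ncard ≤ 2 * S.ncard := by
  have h1 : {x : G | x ∈ S ∨ x⁻¹ ∈ S} = S ∪ S⁻¹ := by
    ext x
    simp
  rw [h1]
  refine ⟨hS.union hS.inv, (Set.ncard_union_le _ _).trans ?_⟩
  have h2 : (S⁻¹).ncard = S.ncard := by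
    rw [← Set.image_inv_eq_inv]
    exact Set.ncard_image_of_injective _ inv_injective
  omega

/-- the neighbours of `Z` -/
theorem nbr_card {S Z : Set G} (hS : S.Finite) (hZ : Z.Finite) :
    {h : G | ∃ s, (s ∈ S ∨ s⁻¹ ∈ S) ∧ s * h ∈ Z}.Finite ∧
      {h : G | ∃ s, (s ∈ S ∨ s⁻¹ ∈ S) ∧ s * h ∈ Z}.ncard ≤ 2 * S.ncard * Z.ncard := by
  obtain ⟨g1, g2⟩ := gens_finite hS
  have hfin : ({s : G | s ∈ S ∨ s⁻¹ ∈ S} ×ˢ Z).Finite := g1.prod hZ
  have hsub : {h : G | ∃ s, (s ∈ S ∨ s⁻¹ ∈ S) ∧ s * h ∈ Z} ⊆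
      (fun p : G × G => p.1⁻¹ * p.2) '' ({s : G | s ∈ S ∨ s⁻¹ ∈ S} ×ˢ Z) := by
    rintro h ⟨s, hs, hz⟩
    exact ⟨(s, s * h), ⟨hs, hz⟩, by simp⟩
  refine ⟨(hfin.image _).subset hsub, (Set.ncard_le_ncard hsub (hfin.image _)).trans ?_⟩
  refine (Set.ncard_image_le hfin).trans ?_
  rw [Set.ncard_prod]
  exact Nat.mul_le_mul_right _ g2

/-- `Z` separates `F`: some label class has relative boundary at most
`(|bdry F| + 2 |S| |Z|) / (|F| - |Z|)`. -/
theorem split {S : Set G} (hS : S.Finite) {F Z : Set G} (hF : F.Finite) (hZ : Z ⊆ F)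
    {α : Type*} (ℓ : G → α)
    (hℓ : ∀ h ∈ F \ Z, ∀ s, (s ∈ S ∨ s⁻¹ ∈ S) → s * h ∈ F \ Z → ℓ (s * h) = ℓ h)
    {q : ℝ} (hq : ∀ a, ({h | h ∈ F \ Z ∧ ℓ h = a}.ncard : ℝ) ≤ q) (hlt : Z.ncard < F.ncard) :
    ∃ F' : Set G, F' ⊆ F ∧ F'.Nonempty ∧ (F'.ncard : ℝ) ≤ q ∧
      ((F.ncard : ℝ) - Z.ncard) * (bdry S F').ncard ≤
        ((bdry S F).ncard + 2 * S.ncard * Z.ncard) * F'.ncard := by
  classical
  have hZf : Z.Finite := hF.subset hZ
  obtain ⟨n1, n2⟩ := nbr_card hS hZf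
  set N : Set G := {h : G | ∃ s, (s ∈ S ∨ s⁻¹ ∈ S) ∧ s * h ∈ Z} with hN
  have hW : (F \ Z).Finite := hF.subset Set.sdiff_subset
  set cl : α → Set G := fun a => {h | h ∈ F \ Z ∧ ℓ h = a} with hcl
  have hclf : ∀ a, (cl a).Finite := fun a => hW.subset fun x hx => hx.1
  -- the boundaries
  have hbd : ∀ a, bdry S (cl a) ⊆ {h | h ∈ bdry S F ∪ N ∧ h ∈ F \ Z ∧ ℓ h = a} := by
    rintro a h ⟨⟨h1, h2⟩, s, hs, h3⟩
    refine ⟨?_, h1, h2⟩
    by_cases h4 : s * h ∈ F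
    · by_cases h5 : s * h ∈ Z
      · exact Or.inr ⟨s, hs, h5⟩
      · exact absurd ⟨⟨h4, h5⟩, (hℓ h h1 s hs ⟨h4, h5⟩).trans h2⟩ h3
    · exact Or.inl ⟨h1.1, s, hs, h4⟩
  have hbF : (bdry S F).Finite := hF.subset fun x hx => hx.1
  -- finite sets of labels
  set I : Finset α := hW.toFinset.image ℓ with hI
  have hsum1 : ∑ a ∈ I, (cl a).ncard = (F \ Z).ncard := by
    have h1 : (F \ Z).ncard = hW.toFinset.card := Set.ncard_eq_toFinset_card _ hW
    rw [h1, Finset.card_eq_sum_card_image ℓ]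
    refine Finset.sum_congr rfl fun a _ => ?_
    rw [← Set.ncard_coe_finset]
    congr 1
    ext h
    simp [hcl]
  have hsum2 : ∑ a ∈ I, (bdry S (cl a)).ncard ≤ (bdry S F).ncard + 2 * S.ncard * Z.ncard := by
    have hU : (bdry S F ∪ N).Finite := hbF.union n1
    set U : Finset G := hU.toFinset.filter (fun h => h ∈ F \ Z) with hUdef
    have h2 : ∀ a ∈ I, (bdry S (cl a)).ncard ≤ (U.filter fun h => ℓ h = a).card := by
      intro a _
      rw [← Set.ncard_coe_finset]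
      refine Set.ncard_le_ncard ?_ (Finset.finite_toSet _)
      intro h hh
      have h3 := hbd a hh
      simp only [Set.mem_setOf_eq] at h3
      simp only [hUdef, Finset.coe_filter, Finset.mem_filter, Set.Finite.mem_toFinset,
        Set.mem_setOf_eq]
      exact ⟨⟨h3.1, h3.2.1⟩, h3.2.2⟩
    calc ∑ a ∈ I, (bdry S (cl a)).ncard ≤ ∑ a ∈ I, (U.filter fun h => ℓ h = a).card :=
          Finset.sum_le_sum h2
      _ ≤ U.card := by
          rw [← Finset.card_biUnion]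
          · exact Finset.card_le_card (Finset.biUnion_subset.2 fun a _ => Finset.filter_subset _ _)
          · intro a _ b _ hab
            refine Finset.disjoint_left.2 fun x hx hy => hab ?_
            rw [← (Finset.mem_filter.1 hx).2, ← (Finset.mem_filter.1 hy).2]
      _ ≤ hU.toFinset.card := Finset.card_filter_le _ _
      _ = (bdry S F ∪ N).ncard := (Set.ncard_eq_toFinset_card _ hU).symm
      _ ≤ (bdry S F).ncard + N.ncard := Set.ncard_union_le _ _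
      _ ≤ _ := Nat.add_le_add_left n2 _
  have hdiff : (F \ Z).ncard = F.ncard - Z.ncard := Set.ncard_sdiff hZ hZf
  by_contra hcon
  push Not at hcon
  have hpos : 0 < (F \ Z).ncard := by omega
  have hIne : I.Nonempty := by
    obtain ⟨x, hx⟩ := (Set.ncard_pos hW).1 hpos
    exact ⟨ℓ x, Finset.mem_image_of_mem _ (by simpa using hx)⟩
  have h3 : ∀ a ∈ I, ((bdry S F).ncard + 2 * S.ncard * Z.ncard : ℝ) * (cl a).ncard <
      ((F.ncard : ℝ) - Z.ncard) * (bdry S (cl a)).ncard := by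
    intro a ha
    refine hcon (cl a) (fun x hx => hx.1.1) ?_ (hq a)
    obtain ⟨x, hx, rfl⟩ := Finset.mem_image.1 ha
    exact ⟨x, by simpa using hx, rfl⟩
  have h4 := Finset.sum_lt_sum_of_nonempty hIne h3
  rw [← Finset.mul_sum, ← Finset.mul_sum, ← Nat.cast_sum, ← Nat.cast_sum, hsum1, hdiff,
    Nat.cast_sub hlt.le] at h4
  have h5 : (0 : ℝ) < (F.ncard : ℝ) - Z.ncard := by
    have : (Z.ncard : ℝ) < F.ncard := by exact_mod_cast hlt
    linarith
  have h6 : ((∑ a ∈ I, (bdry S (cl a)).ncard : ℕ) : ℝ) ≤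
      (bdry S F).ncard + 2 * S.ncard * Z.ncard := by exact_mod_cast hsum2
  nlinarith

end Pool.Agent.Grm
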